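import Mathlib

set_option autoImplicit false

namespace Pool.Agent.H342Z.FF

open Set Filter Topology MeasureTheory MeasureTheory.Measure

abbrev F2 := ZMod 2
abbrev G := ℤ → ZMod 2

/-- normalised Haar measure -/
noncomputable def haar (K : Type) [AddGroup K] [TopologicalSpace K] [IsTopologicalAddGroup K]
    [CompactSpace K] [MeasurableSpace K] [BorelSpace K] : Measure K := addHaarMeasure ⊤

instance haar_isHaar (K : Type) [AddGroup K] [TopologicalSpace K] [IsTopologicalAddGroup K]
    [CompactSpace K] [MeasurableSpace K] [BorelSpace K] : IsAddHaarMeasure (haar K) := by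
  unfold haar; infer_instance

instance haar_isProb (K : Type) [AddGroup K] [TopologicalSpace K] [IsTopologicalAddGroup K]
    [CompactSpace K] [MeasurableSpace K] [BorelSpace K] : IsProbabilityMeasure (haar K) :=
  IsProbabilityMeasure.mk addHaarMeasure_self

noncomputable def lam : Measure (G × G) := (haar G).prod (haar G)

instance : IsProbabilityMeasure lam := by unfold lam; infer_instance

instance : IsAddHaarMeasure lam := by unfold lam; infer_instance

noncomputable def sgn (t : F2) : ℝ := if t = 0 then 1 else -1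

theorem sgn_add (a b : F2) : sgn (a + b) = sgn a * sgn b := by
  have : ∀ a : F2, a = 0 ∨ a = 1 := by decide
  have h11 : (1 : F2) + 1 = 0 := by decide
  rcases this a with rfl | rfl <;> rcases this b with rfl | rfl <;> simp [sgn, h11]

theorem sgn_zero : sgn 0 = 1 := by simp [sgn]

theorem sgn_one : sgn 1 = -1 := by simp [sgn]

theorem sgn_pm (a : F2) : sgn a = 1 ∨ sgn a = -1 := by
  unfold sgn; split_ifs <;> simp

theorem abs_sgn (a : F2) : |sgn a| = 1 := by
  rcases sgn_pm a with h | h <;> simp [h]

theorem sgn_mul_self (a : F2) : sgn a * sgn a = 1 := by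
  rcases sgn_pm a with h | h <;> simp [h]

theorem measurable_sgn : Measurable sgn := measurable_of_countable _

theorem flip_zero {k : G → ℝ} (j : ℤ) (h : ∀ z, k (Pi.single j 1 + z) = - k z) :
    ∫ z, k z ∂(haar G) = 0 := by
  have h1 := integral_add_left_eq_self (μ := haar G) k (Pi.single j 1)
  simp only [h, integral_neg] at h1
  linarith

noncomputable def chi {ι : Type} (W : Finset ι) (x : ι → F2) : ℝ := sgn (∑ i ∈ W, x i)

theorem measurable_chi {ι : Type} (W : Finset ι) : Measurable (chi W) :=
  measurable_sgn.comp (Finset.measurable_sum _ fun i _ => measurable_pi_apply i)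

theorem chi_empty {ι : Type} (x : ι → F2) : chi ∅ x = 1 := by simp [chi, sgn]

theorem abs_chi {ι : Type} (W : Finset ι) (x : ι → F2) : |chi W x| = 1 := abs_sgn _

theorem integral_chi {U : Finset ℤ} (hU : U.Nonempty) : ∫ z, chi U z ∂(haar G) = 0 := by
  classical
  obtain ⟨j, hj⟩ := hU
  apply flip_zero j
  intro z
  simp only [chi, Pi.add_apply, Finset.sum_add_distrib, sgn_add]
  rw [Finset.sum_pi_single' j (1 : F2) U, if_pos hj, sgn_one]
  ring

theorem integrable_mul_bdd {Ω : Type} [MeasurableSpace Ω] {ρ : Measure Ω} {h k : Ω → ℝ}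
    (hh : Integrable h ρ) (hk : Measurable k) {C : ℝ} (hC : ∀ x, |k x| ≤ C) :
    Integrable (fun x => h x * k x) ρ :=
  hh.mul_bdd hk.aestronglyMeasurable (Eventually.of_forall hC)

theorem integrable_bdd {Ω : Type} [MeasurableSpace Ω] {ρ : Measure Ω} [IsFiniteMeasure ρ]
    {k : Ω → ℝ} (hk : Measurable k) {C : ℝ} (hC : ∀ x, |k x| ≤ C) : Integrable k ρ :=
  Integrable.of_bound hk.aestronglyMeasurable C (Eventually.of_forall hC)

theorem complete_pi {ι : Type} (ρ : Measure (ι → F2)) [IsFiniteMeasure ρ] {h : (ι → F2) → ℝ}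
    (hh : Integrable h ρ) (h0 : ∀ W : Finset ι, ∫ x, h x * chi W x ∂ρ = 0) : h =ᵐ[ρ] 0 := by
  classical
  have step1 : ∀ (h : (ι → F2) → ℝ), Integrable h ρ → (∀ W : Finset ι, ∫ x, h x * chi W x ∂ρ = 0) →
      ∀ (i : ι) (c : F2 → ℝ) (W : Finset ι), ∫ x, (h x * c (x i)) * chi W x ∂ρ = 0 := by
    intro h hh h0 i c W
    have e1 : ∀ t : F2, c t = (c 0 + c 1) / 2 + (c 0 - c 1) / 2 * sgn t := by
      have : ∀ a : F2, a = 0 ∨ a = 1 := by decide
      intro t
      rcases this t with rfl | rfl
      · rw [sgn_zero]; ring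
      · rw [sgn_one]; ring
    obtain ⟨W', hW'⟩ : ∃ W' : Finset ι, ∀ x, chi W' x = sgn (x i) * chi W x := by
      by_cases hi : i ∈ W
      · refine ⟨W.erase i, fun x => ?_⟩
        unfold chi
        rw [← Finset.add_sum_erase W _ hi, sgn_add, ← mul_assoc, sgn_mul_self, one_mul]
      · refine ⟨insert i W, fun x => ?_⟩
        unfold chi
        rw [Finset.sum_insert hi, sgn_add]
    have e2 : ∀ x, (h x * c (x i)) * chi W x =
        (c 0 + c 1) / 2 * (h x * chi W x) + (c 0 - c 1) / 2 * (h x * chi W' x) := by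
      intro x
      rw [e1 (x i), hW']; ring
    simp_rw [e2]
    rw [integral_add, integral_const_mul, integral_const_mul, h0, h0]
    · simp
    · exact (integrable_mul_bdd hh (measurable_chi _) (fun x => (abs_chi _ x).le)).const_mul _
    · exact (integrable_mul_bdd hh (measurable_chi _) (fun x => (abs_chi _ x).le)).const_mul _
  have step2 : ∀ (t : ι → Set F2) (s : Finset ι) (W : Finset ι),
      ∫ x, ((s : Set ι).pi t).indicator h x * chi W x ∂ρ = 0 := by
    intro t s
    induction s using Finset.induction_on with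
    | empty => simpa using h0
    | insert i s _ ih =>
      intro W
      have hm : MeasurableSet ((s : Set ι).pi t) :=
        MeasurableSet.pi s.countable_toSet fun _ _ => MeasurableSet.of_discrete
      rw [← step1 _ (hh.indicator hm) ih i ((t i).indicator 1) W]
      congr 1
      funext x
      congr 1
      by_cases h1 : x i ∈ t i <;> by_cases h2 : x ∈ (s : Set ι).pi t
      · rw [indicator_of_mem, indicator_of_mem h1, indicator_of_mem h2]
        · simp
        · rw [Finset.coe_insert, insert_pi]; exact ⟨h1, h2⟩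
      · rw [indicator_of_notMem, indicator_of_notMem h2]
        · simp
        · rw [Finset.coe_insert, insert_pi]; exact fun h => h2 h.2
      · rw [indicator_of_notMem, indicator_of_notMem h1]
        · simp
        · rw [Finset.coe_insert, insert_pi]; exact fun h => h1 h.1
      · rw [indicator_of_notMem, indicator_of_notMem h1]
        · simp
        · rw [Finset.coe_insert, insert_pi]; exact fun h => h1 h.1
  have htot : ∫ x, h x ∂ρ = 0 := by simpa [chi_empty] using h0 ∅
  have step3 : ∀ E : Set (ι → F2), MeasurableSet E → ∫ x in E, h x ∂ρ = 0 := by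
    refine MeasurableSpace.induction_on_inter (C := fun E _ => ∫ x in E, h x ∂ρ = 0)
      generateFrom_squareCylinders.symm
      (isPiSystem_squareCylinders (fun _ => MeasurableSpace.isPiSystem_measurableSet)
        (fun _ => (MeasurableSet.univ : MeasurableSet (univ : Set F2)))) (by simp) ?_ ?_ ?_
    · rintro _ ⟨s, t, _, rfl⟩
      have hm : MeasurableSet ((s : Set ι).pi t) :=
        MeasurableSet.pi s.countable_toSet fun _ _ => MeasurableSet.of_discrete
      rw [← integral_indicator hm]
      simpa [chi_empty] using step2 t s ∅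
    · intro E hE h1
      have := integral_add_compl hE hh
      rw [h1, htot] at this
      simpa using this
    · intro f hf hfm h1
      rw [integral_iUnion hfm hf hh.integrableOn]
      simp [h1]
  exact hh.ae_eq_zero_of_forall_setIntegral_eq_zero fun E hE _ => step3 E hE

/-- characters of the data group -/
noncomputable def ch (U V : Finset ℤ) (d : G × G) : ℝ := chi U d.1 * chi V d.2

theorem measurable_ch (U V : Finset ℤ) : Measurable (ch U V) :=
  ((measurable_chi U).comp measurable_fst).mul ((measurable_chi V).comp measurable_snd)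

theorem abs_ch (U V : Finset ℤ) (d : G × G) : |ch U V d| = 1 := by
  simp [ch, abs_mul, abs_chi]

theorem complete_prod {h : G × G → ℝ} (hh : Integrable h lam)
    (h0 : ∀ U V : Finset ℤ, ∫ d, h d * ch U V d ∂lam = 0) : h =ᵐ[lam] 0 := by
  let e : (ℤ ⊕ ℤ → F2) ≃ᵐ G × G := MeasurableEquiv.sumPiEquivProdPi fun _ : ℤ ⊕ ℤ => F2
  have h1 : (h ∘ e) =ᵐ[lam.map e.symm] 0 := by
    apply complete_pi
    · rw [integrable_map_equiv]
      simpa [Function.comp_def] using hh
    · intro W
      rw [integral_map_equiv, ← h0 W.toLeft W.toRight]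
      congr 1
      funext d
      simp only [Function.comp_apply, MeasurableEquiv.apply_symm_apply]
      congr 1
      simp only [chi, ch]
      rw [Finset.sum_sum_eq_sum_toLeft_add_sum_toRight, sgn_add]
      rfl
  have h2 := ae_of_ae_map e.symm.measurable.aemeasurable h1
  filter_upwards [h2] with d hd
  simpa using hd

def TA (Fn : G × G → ℝ) : Prop :=
  ∃ f : G → ℝ, Measurable f ∧ (∀ a, |f a| ≤ 1) ∧ ∫ a, f a ∂(haar G) = 0 ∧
    Fn =ᵐ[lam] fun d => f d.1

def TB (Fn : G × G → ℝ) : Prop :=
  ∃ f : G → ℝ, Measurable f ∧ (∀ a, |f a| ≤ 1) ∧ ∫ a, f a ∂(haar G) = 0 ∧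
    Fn =ᵐ[lam] fun d => f d.2

theorem int_prod (f g : G → ℝ) :
    ∫ d, f d.1 * g d.2 ∂lam = (∫ a, f a ∂(haar G)) * ∫ a, g a ∂(haar G) :=
  integral_prod_mul f g

theorem not_ae_zero {Fn : G × G → ℝ} (h : ∀ d, |Fn d| = 1) : ¬ Fn =ᵐ[lam] 0 := by
  intro h0
  obtain ⟨d, hd⟩ := h0.exists
  have := h d
  rw [hd] at this
  simp at this

theorem dich {Fn : G × G → ℝ} (hm : Measurable Fn) (h1 : ∀ d, |Fn d| = 1)
    (hmean : ∫ d, Fn d ∂lam = 0)
    (hmix : ∀ U V : Finset ℤ, U.Nonempty → V.Nonempty → ∫ d, Fn d * ch U V d ∂lam = 0) :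
    TA Fn ∨ TB Fn := by
  let f : G → ℝ := fun a => ∫ b, Fn (a, b) ∂(haar G)
  let g : G → ℝ := fun b => ∫ a, Fn (a, b) ∂(haar G)
  have hF : Integrable Fn lam := integrable_bdd hm fun d => (h1 d).le
  have hfm : Measurable f := (hm.stronglyMeasurable.integral_prod_right' (ν := haar G)).measurable
  have hgm : Measurable g := (hm.stronglyMeasurable.integral_prod_left' (μ := haar G)).measurable
  have hfb : ∀ a, |f a| ≤ 1 := by
    intro a
    have := norm_integral_le_of_norm_le_const (μ := haar G) (f := fun b => Fn (a, b)) (C := 1)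
      (Eventually.of_forall fun b => (h1 _).le)
    simpa using this
  have hgb : ∀ b, |g b| ≤ 1 := by
    intro b
    have := norm_integral_le_of_norm_le_const (μ := haar G) (f := fun a => Fn (a, b)) (C := 1)
      (Eventually.of_forall fun a => (h1 _).le)
    simpa using this
  have hfk : ∀ U : Finset ℤ, ∫ a, f a * chi U a ∂(haar G) = ∫ d, Fn d * ch U ∅ d ∂lam := by
    intro U
    have := integral_prod (μ := haar G) (ν := haar G) (fun d => Fn d * ch U ∅ d)
      (integrable_mul_bdd hF (measurable_ch _ _) fun d => (abs_ch _ _ d).le)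
    unfold lam
    rw [this]
    congr 1
    funext a
    simp only [ch, chi_empty, mul_one]
    rw [integral_mul_const]
  have hgk : ∀ V : Finset ℤ, ∫ b, g b * chi V b ∂(haar G) = ∫ d, Fn d * ch ∅ V d ∂lam := by
    intro V
    have := integral_prod_symm (μ := haar G) (ν := haar G) (fun d => Fn d * ch ∅ V d)
      (integrable_mul_bdd hF (measurable_ch _ _) fun d => (abs_ch _ _ d).le)
    unfold lam
    rw [this]
    congr 1
    funext a
    simp only [ch, chi_empty, one_mul]
    rw [integral_mul_const]
  have hf0 : ∫ a, f a ∂(haar G) = 0 := by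
    have := hfk ∅
    simp only [ch, chi_empty, mul_one] at this
    rw [this, hmean]
  have hg0 : ∫ a, g a ∂(haar G) = 0 := by
    have := hgk ∅
    simp only [ch, chi_empty, mul_one] at this
    rw [this, hmean]
  have hf1 : Integrable (fun d : G × G => f d.1) lam :=
    integrable_bdd (hfm.comp measurable_fst) fun d => hfb _
  have hg1 : Integrable (fun d : G × G => g d.2) lam :=
    integrable_bdd (hgm.comp measurable_snd) fun d => hgb _
  have hsum : (fun d : G × G => Fn d - f d.1 - g d.2) =ᵐ[lam] 0 := by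
    apply complete_prod ((hF.sub hf1).sub hg1)
    intro U V
    have e : ∀ d : G × G, (Fn d - f d.1 - g d.2) * ch U V d = Fn d * ch U V d -
        (f d.1 * chi U d.1) * chi V d.2 - chi U d.1 * (g d.2 * chi V d.2) := by
      intro d; simp only [ch]; ring
    have i1 := integrable_mul_bdd hF (measurable_ch U V) fun d => (abs_ch _ _ d).le
    have i2 : Integrable (fun d : G × G => (f d.1 * chi U d.1) * chi V d.2) lam := by
      have := integrable_mul_bdd hf1 (measurable_ch U V) fun d => (abs_ch _ _ d).le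
      simpa only [ch, mul_assoc] using this
    have i3 : Integrable (fun d : G × G => chi U d.1 * (g d.2 * chi V d.2)) lam := by
      have := integrable_mul_bdd hg1 (measurable_ch U V) fun d => (abs_ch _ _ d).le
      refine this.congr (Eventually.of_forall fun d => ?_)
      simp only [ch]; ring
    simp only [Pi.sub_apply]
    simp_rw [e]
    have i12 : Integrable (fun d : G × G => Fn d * ch U V d -
      (f d.1 * chi U d.1) * chi V d.2) lam := i1.sub i2
    rw [integral_sub i12 i3, integral_sub i1 i2,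
      int_prod (fun a => f a * chi U a) (chi V), int_prod (chi U) (fun b => g b * chi V b)]
    rcases U.eq_empty_or_nonempty with rfl | hU <;> rcases V.eq_empty_or_nonempty with rfl | hV
    · simp [ch, chi_empty, hmean, hf0, hg0]
    · rw [hgk, integral_chi hV]
      simp [chi_empty]
    · rw [hfk, integral_chi hU]
      simp [chi_empty]
    · rw [hmix U V hU hV, integral_chi hU, integral_chi hV]
      simp
  have hsq : (fun d : G × G => f d.1 * g d.2) =ᵐ[lam] fun d =>
      (f d.1 ^ 3) * g d.2 + 2 * ((f d.1 ^ 2) * (g d.2 ^ 2)) + f d.1 * (g d.2 ^ 3) := by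
    filter_upwards [hsum] with d hd
    have h2 : Fn d = f d.1 + g d.2 := by
      simp only [Pi.zero_apply] at hd; linarith
    have h3 : (f d.1 + g d.2) ^ 2 = 1 := by
      rw [← h2, ← sq_abs, h1]; norm_num
    calc f d.1 * g d.2 = (f d.1 + g d.2) ^ 2 * (f d.1 * g d.2) := by rw [h3, one_mul]
      _ = _ := by ring
  have ib : ∀ n k : ℕ, Integrable (fun d : G × G => f d.1 ^ n * g d.2 ^ k) lam := by
    intro n k
    refine integrable_bdd (((hfm.comp measurable_fst).pow_const n).mul
      ((hgm.comp measurable_snd).pow_const k)) (C := 1) fun d => ?_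
    rw [abs_mul, abs_pow, abs_pow]
    exact mul_le_one₀ (pow_le_one₀ (abs_nonneg _) (hfb _)) (by positivity)
      (pow_le_one₀ (abs_nonneg _) (hgb _))
  have hint := integral_congr_ae hsq
  have i1 : Integrable (fun d : G × G => f d.1 ^ 3 * g d.2) lam := by simpa using ib 3 1
  have i3 : Integrable (fun d : G × G => f d.1 * g d.2 ^ 3) lam := by simpa using ib 1 3
  have i12 : Integrable (fun d : G × G => f d.1 ^ 3 * g d.2 + 2 * (f d.1 ^ 2 * g d.2 ^ 2)) lam :=
    i1.add ((ib 2 2).const_mul 2)
  rw [integral_add i12 i3, integral_add i1 ((ib 2 2).const_mul 2),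
    integral_const_mul, int_prod f g, int_prod (fun a => f a ^ 3) g,
    int_prod (fun a => f a ^ 2) (fun b => g b ^ 2), int_prod f (fun b => g b ^ 3), hf0, hg0] at hint
  have hz : (∫ a, f a ^ 2 ∂(haar G)) * ∫ b, g b ^ 2 ∂(haar G) = 0 := by linarith
  have sqz : ∀ k : G → ℝ, Measurable k → (∀ a, |k a| ≤ 1) → ∫ a, k a ^ 2 ∂(haar G) = 0 →
      ∀ᵐ a ∂(haar G), k a = 0 := by
    intro k hk hb h0
    have := (integral_eq_zero_iff_of_nonneg (fun a => sq_nonneg (k a))
      (integrable_bdd (hk.pow_const 2) (C := 1) fun a => by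
        rw [abs_pow]; exact pow_le_one₀ (abs_nonneg _) (hb _))).mp h0
    filter_upwards [this] with a ha
    simpa using ha
  rcases mul_eq_zero.mp hz with h | h
  · right
    refine ⟨g, hgm, hgb, hg0, ?_⟩
    have h2 : ∀ᵐ d ∂lam, f d.1 = 0 :=
      (measurePreserving_fst (μ := haar G) (ν := haar G)).quasiMeasurePreserving.ae
        (sqz f hfm hfb h)
    filter_upwards [hsum, h2] with d hd hd2
    simp only [Pi.zero_apply] at hd; linarith
  · left
    refine ⟨f, hfm, hfb, hf0, ?_⟩
    have h2 : ∀ᵐ d ∂lam, g d.2 = 0 :=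
      (measurePreserving_snd (μ := haar G) (ν := haar G)).quasiMeasurePreserving.ae
        (sqz g hgm hgb h)
    filter_upwards [hsum, h2] with d hd hd2
    simp only [Pi.zero_apply] at hd; linarith

theorem not_TB {Fn : G × G → ℝ} (hm : Measurable Fn) (h1 : ∀ d, |Fn d| = 1)
    (h0 : ∀ V : Finset ℤ, ∫ d, Fn d * ch ∅ V d ∂lam = 0) : ¬ TB Fn := by
  rintro ⟨g, -, -, -, hg⟩
  apply not_ae_zero h1
  apply complete_prod (integrable_bdd hm fun d => (h1 d).le)
  intro U V
  rcases U.eq_empty_or_nonempty with rfl | hU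
  · exact h0 V
  · have : (fun d => Fn d * ch U V d) =ᵐ[lam] fun d => chi U d.1 * (g d.2 * chi V d.2) := by
      filter_upwards [hg] with d hd
      rw [hd, ch]; ring
    rw [integral_congr_ae this, int_prod (chi U) (fun b => g b * chi V b), integral_chi hU,
      zero_mul]

theorem not_TA {Fn : G × G → ℝ} (hm : Measurable Fn) (h1 : ∀ d, |Fn d| = 1)
    (h0 : ∀ U : Finset ℤ, ∫ d, Fn d * ch U ∅ d ∂lam = 0) : ¬ TA Fn := by
  rintro ⟨g, -, -, -, hg⟩
  apply not_ae_zero h1
  apply complete_prod (integrable_bdd hm fun d => (h1 d).le)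
  intro U V
  rcases V.eq_empty_or_nonempty with rfl | hV
  · exact h0 U
  · have : (fun d => Fn d * ch U V d) =ᵐ[lam] fun d => (g d.1 * chi U d.1) * chi V d.2 := by
      filter_upwards [hg] with d hd
      rw [hd, ch]; ring
    rw [integral_congr_ae this, int_prod (fun b => g b * chi U b) (chi V), integral_chi hV,
      mul_zero]

theorem orth {Fn Fn' : G × G → ℝ} (h : TA Fn) (h' : TB Fn') : ∫ d, Fn d * Fn' d ∂lam = 0 := by
  obtain ⟨f, -, -, hf0, hf⟩ := h
  obtain ⟨g, -, -, -, hg⟩ := h'
  have : (fun d => Fn d * Fn' d) =ᵐ[lam] fun d => f d.1 * g d.2 := by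
    filter_upwards [hf, hg] with d hd hd'
    rw [hd, hd']
  rw [integral_congr_ae this, int_prod, hf0, zero_mul]

theorem no_mix {Fn Fn' H : G × G → ℝ} (h : TA Fn) (h' : TB Fn') (hm : Measurable H)
    (h1 : ∀ d, |H d| = 1) (he : H =ᵐ[lam] fun d => Fn d * Fn' d)
    (hmix : ∀ U V : Finset ℤ, U.Nonempty → V.Nonempty → ∫ d, H d * ch U V d ∂lam = 0) :
    False := by
  obtain ⟨f, -, -, hf0, hf⟩ := h
  obtain ⟨g, -, -, hg0, hg⟩ := h'
  apply not_ae_zero h1
  apply complete_prod (integrable_bdd hm fun d => (h1 d).le)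
  intro U V
  have : (fun d => H d * ch U V d) =ᵐ[lam] fun d => (f d.1 * chi U d.1) * (g d.2 * chi V d.2) := by
    filter_upwards [hf, hg, he] with d hd hd' hd''
    rw [hd'', hd, hd', ch]; ring
  rcases U.eq_empty_or_nonempty with rfl | hU
  · rw [integral_congr_ae this, int_prod (fun b => f b * chi ∅ b) (fun b => g b * chi V b)]
    simp [chi_empty, hf0]
  rcases V.eq_empty_or_nonempty with rfl | hV
  · rw [integral_congr_ae this, int_prod (fun b => f b * chi U b) (fun b => g b * chi ∅ b)]
    simp [chi_empty, hg0]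
  exact hmix U V hU hV

end Pool.Agent.H342Z.FF
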