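import Pool.Agent.H342Z.FF.Sub

set_option autoImplicit false

namespace Pool.Agent.H342Z.FF

open Set Filter Topology MeasureTheory MeasureTheory.Measure

abbrev AA := (Bool × Bool) × F2 × F2
abbrev XX := ℤ → AA

instance borelXX : BorelSpace XX := Pi.borelSpace

def J (m : Mk) (d : G × G) : XX := fun i => (m i, d.1 i, d.2 i)

theorem continuous_J (m : Mk) : Continuous (J m) :=
  continuous_pi fun i => continuous_const.prodMk
    (((continuous_apply i).comp continuous_fst).prodMk ((continuous_apply i).comp continuous_snd))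

theorem measurable_J (m : Mk) : Measurable (J m) := (continuous_J m).measurable

theorem sh_J (n : ℤ) (m : Mk) (d : G × G) : sh n (J m d) = J (sh n m) (sh2 n d) := rfl

theorem measurable_sh (n : ℤ) : Measurable (sh n : XX → XX) := (continuous_sh n).measurable

abbrev Idx := Mark × Finset ℤ × Finset ℤ × ℕ

def node : Mark → List ℕ
  | Sum.inl τ => τ
  | Sum.inr _ => []

def allowed (t : Bool) (a : Mark) (U V : Finset ℤ) : Prop :=
  (U.Nonempty ∧ V.Nonempty) ∨ (U = ∅ ∧ V = ∅) ∨ (U = ∅ ∧ (∃ τ, a = Sum.inl τ) ∧ t = false) ∨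
    (V = ∅ ∧ a = Sum.inl [])

open Classical in
noncomputable def dat (t : Bool) (p : Idx) : Measure (G × G) :=
  if allowed t p.1 p.2.1 p.2.2.1 then nu p.2.1 p.2.2.1 p.2.2.2 else nu ∅ ∅ p.2.2.2

theorem dat_eq (t : Bool) (p : Idx) :
    ∃ U V, allowed t p.1 U V ∧ dat t p = nu U V p.2.2.2 := by
  unfold dat
  split_ifs with h
  · exact ⟨_, _, h, rfl⟩
  · exact ⟨∅, ∅, Or.inr (Or.inl ⟨rfl, rfl⟩), rfl⟩

instance (t : Bool) (p : Idx) : IsProbabilityMeasure (dat t p) := by
  obtain ⟨U, V, -, h⟩ := dat_eq t p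
  rw [h]; infer_instance

noncomputable def cmp (t : Bool) (p : Idx) : Measure XX :=
  (per p.1 : ENNReal)⁻¹ • ∑ s ∈ Finset.range (per p.1), (dat t p).map (J (sh s (mkr p.1)))

theorem cmp_apply (t : Bool) (p : Idx) {E : Set XX} (hE : MeasurableSet E) :
    cmp t p E = (per p.1 : ENNReal)⁻¹ *
      ∑ s ∈ Finset.range (per p.1), dat t p (J (sh s (mkr p.1)) ⁻¹' E) := by
  simp only [cmp, Measure.smul_apply, smul_eq_mul, Measure.finsetSum_apply,
    Measure.map_apply (measurable_J _) hE]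

theorem cmp_const (t : Bool) (p : Idx) {E : Set XX} (hE : MeasurableSet E) {c : ENNReal}
    (h : ∀ s : ℕ, dat t p (J (sh s (mkr p.1)) ⁻¹' E) = c) : cmp t p E = c := by
  rw [cmp_apply t p hE]
  simp only [h, Finset.sum_const, Finset.card_range, nsmul_eq_mul]
  rw [← mul_assoc, ENNReal.inv_mul_cancel, one_mul]
  · exact_mod_cast (per_pos _).ne'
  · simp

instance (t : Bool) (p : Idx) : IsProbabilityMeasure (cmp t p) :=
  ⟨cmp_const t p MeasurableSet.univ fun s => by simp⟩

noncomputable def enum : ℕ → Idx := (exists_surjective_nat Idx).choose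

theorem enum_surj : Function.Surjective enum := (exists_surjective_nat Idx).choose_spec

noncomputable def mu (P : List ℕ → Bool) : Measure XX :=
  Measure.sum fun n : ℕ => ((2 : ENNReal)⁻¹ ^ (n + 1)) • cmp (P (node (enum n).1)) (enum n)

theorem sum_w : ∑' n : ℕ, (2 : ENNReal)⁻¹ ^ (n + 1) = 1 := by
  rw [ENNReal.tsum_geometric_add_one, ENNReal.one_sub_inv_two, inv_inv,
    ENNReal.inv_mul_cancel (by simp) (by simp)]

theorem mu_const (P : List ℕ → Bool) {E : Set XX} (hE : MeasurableSet E) {c : ENNReal}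
    (h : ∀ p : Idx, ∀ s : ℕ, dat (P (node p.1)) p (J (sh s (mkr p.1)) ⁻¹' E) = c) :
    mu P E = c := by
  rw [mu, Measure.sum_apply _ hE]
  simp only [Measure.smul_apply, smul_eq_mul, cmp_const _ _ hE (h _)]
  rw [ENNReal.tsum_mul_right, sum_w, one_mul]

instance (P : List ℕ → Bool) : IsProbabilityMeasure (mu P) :=
  ⟨mu_const P MeasurableSet.univ fun p s => by simp⟩

theorem dat_shift (t : Bool) (p : Idx) (n : ℤ) :
    MeasurePreserving (sh2 n) (dat t p) (dat t p) := by
  obtain ⟨U, V, -, h⟩ := dat_eq t p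
  rw [h]; exact nu_shift _ _ _ _

theorem mu_shift (P : List ℕ → Bool) : (mu P).map (sh 1) = mu P := by
  ext E hE
  rw [Measure.map_apply (measurable_sh 1) hE, mu, Measure.sum_apply _ hE,
    Measure.sum_apply _ (measurable_sh 1 hE)]
  congr 1
  funext n
  simp only [Measure.smul_apply, smul_eq_mul]
  congr 1
  generalize P (node (enum n).1) = t
  generalize enum n = p
  rw [cmp_apply _ _ hE, cmp_apply _ _ (measurable_sh 1 hE)]
  congr 1
  let f : ℕ → ENNReal := fun s => dat t p (J (sh s (mkr p.1)) ⁻¹' E)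
  have h1 : ∀ s : ℕ, dat t p (J (sh s (mkr p.1)) ⁻¹' (sh 1 ⁻¹' E)) = f (s + 1) := by
    intro s
    have : J (sh s (mkr p.1)) ⁻¹' (sh 1 ⁻¹' E) =
        sh2 1 ⁻¹' (J (sh ((s + 1 : ℕ) : ℤ) (mkr p.1)) ⁻¹' E) := by
      ext d
      simp only [mem_preimage, sh_J, sh_sh]
      rw [add_comm]; push_cast; rfl
    rw [this, (dat_shift t p 1).measure_preimage (measurable_J _ hE).nullMeasurableSet]
  simp only [h1]
  have h2 : f (per p.1) = f 0 := by
    have := sh_per_mul p.1 1
    rw [mul_one] at this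
    simp only [f, this, Nat.cast_zero, sh_zero]
  have h3 := (Finset.sum_range_succ' f (per p.1)).symm.trans (Finset.sum_range_succ f (per p.1))
  rw [h2] at h3
  exact (ENNReal.add_left_inj (measure_ne_top _ _)).mp h3

theorem mu_dom (P : List ℕ → Bool) (p : Idx) (s : ℤ) :
    ∃ w : ENNReal, w ≠ 0 ∧ w ≠ ⊤ ∧ w • (dat (P (node p.1)) p).map (J (sh s (mkr p.1))) ≤ mu P := by
  obtain ⟨n, rfl⟩ := enum_surj p
  obtain ⟨t, ht, hs⟩ := sh_mod (enum n).1 s
  refine ⟨(2 : ENNReal)⁻¹ ^ (n + 1) * (per (enum n).1 : ENNReal)⁻¹, ?_, ?_, ?_⟩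
  · simp
  · apply ENNReal.mul_ne_top (by simp)
    rw [ENNReal.inv_ne_top]
    exact_mod_cast (per_pos _).ne'
  · refine le_trans ?_ (Measure.le_sum _ n)
    rw [Measure.le_iff]
    intro E hE
    simp only [Measure.smul_apply, smul_eq_mul]
    rw [cmp_apply _ _ hE, mul_assoc, hs, Measure.map_apply (measurable_J _) hE]
    gcongr
    exact Finset.single_le_sum
      (f := fun s : ℕ => dat (P (node (enum n).1)) (enum n) (J (sh s (mkr (enum n).1)) ⁻¹' E))
      (fun _ _ => zero_le) (Finset.mem_range.mpr ht)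

noncomputable def muP (P : List ℕ → Bool) : ProbabilityMeasure XX := ⟨mu P, inferInstance⟩

theorem continuous_muP : Continuous muP := by
  rw [ProbabilityMeasure.continuous_iff_forall_continuous_integral]
  intro h
  have e : ∀ P, ∫ x, h x ∂(muP P : Measure XX) =
      ∑' n : ℕ, (2⁻¹ : ℝ) ^ (n + 1) * ∫ x, h x ∂(cmp (P (node (enum n).1)) (enum n)) := by
    intro P
    have hi : Integrable h (mu P) := h.integrable _
    show ∫ x, h x ∂(mu P) = _
    unfold mu at hi ⊢
    rw [integral_sum_measure hi]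
    congr 1
    funext n
    rw [integral_smul_measure]
    simp
  simp only [e]
  refine continuous_tsum (u := fun n => (2⁻¹ : ℝ) ^ (n + 1) * ‖h‖) (fun n => ?_) ?_ ?_
  · exact continuous_const.mul ((continuous_of_discreteTopology
      (f := fun t : Bool => ∫ x, h x ∂(cmp t (enum n)))).comp (continuous_apply _))
  · apply Summable.mul_right
    simp only [pow_succ]
    exact (summable_geometric_of_lt_one (by norm_num) (by norm_num)).mul_right _
  · intro n P
    rw [norm_mul, Real.norm_of_nonneg (by positivity)]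
    gcongr
    exact h.norm_integral_le_norm _

/-- finitary factor maps -/
structure Fac (μ : Measure XX) (φ : XX → G) (X₀ : Set XX) : Prop where
  meas : Measurable φ
  map : μ.map φ = haar G
  full : μ X₀ᶜ = 0
  equi : ∀ x ∈ X₀, φ (sh 1 x) = sh 1 (φ x)
  fin : ∀ x ∈ X₀, ∃ n : ℕ, ∀ y ∈ X₀, Agree n y x → φ y 0 = φ x 0

def mrk (x : XX) : Mk := fun i => (x i).1

theorem measurable_mrk : Measurable mrk :=
  measurable_pi_lambda _ fun i => measurable_fst.comp (measurable_pi_apply i)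

theorem measurableSet_typ (D : List ℕ → Prop) : MeasurableSet {m : Mk | Typ D m} := by
  have : {m : Mk | Typ D m} = ⋂ τ, ⋂ _ : ¬ D τ, ⋂ i : ℤ,
      (⋂ t : ℕ, ⋂ _ : t ≤ q τ, (fun m : Mk => m (i + t)) ⁻¹' {u τ t})ᶜ := by
    ext m
    simp only [Typ, Vis, Pat, mem_ofPred_eq, mem_iInter, mem_compl_iff, mem_preimage,
      mem_singleton_iff]
    constructor
    · intro h τ hτ i hi
      exact hτ (h τ ⟨i, hi⟩)
    · rintro h τ ⟨i, hi⟩
      by_contra hτ
      exact h τ hτ i hi
  rw [this]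
  exact MeasurableSet.iInter fun τ => MeasurableSet.iInter fun _ => MeasurableSet.iInter fun i =>
    (MeasurableSet.iInter fun t => MeasurableSet.iInter fun _ =>
      measurable_pi_apply _ (measurableSet_singleton _)).compl

theorem fac_of_good {P : List ℕ → Bool} {D : List ℕ → Prop} (hD : Good D)
    (hP : ∀ τ, D τ → P τ = true) : ∃ φ X₀, Fac (mu P) φ X₀ := by
  classical
  let φ : XX → G := fun x => if Typ D (mrk x) then fun i => (x i).2.2 else fun i => (x i).2.1
  have hφ : Measurable φ := by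
    apply Measurable.ite (measurable_mrk (measurableSet_typ D))
    · exact measurable_pi_lambda _ fun i =>
        measurable_snd.comp (measurable_snd.comp (measurable_pi_apply i))
    · exact measurable_pi_lambda _ fun i =>
        measurable_fst.comp (measurable_snd.comp (measurable_pi_apply i))
  refine ⟨φ, mrk ⁻¹' MM, hφ, ?_, ?_, ?_, ?_⟩
  · ext E hE
    rw [Measure.map_apply hφ hE]
    apply mu_const P (hφ hE)
    rintro ⟨a, U0, V0, R⟩ s
    obtain ⟨U, V, hal, h⟩ := dat_eq (P (node a)) (a, U0, V0, R)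
    simp only at hal h ⊢
    rw [h]
    by_cases ht : Typ D (mkr a)
    · have : J (sh s (mkr a)) ⁻¹' (φ ⁻¹' E) = Prod.snd ⁻¹' E := by
        ext d
        have h1 : Typ D (mrk (J (sh s (mkr a)) d)) := (typ_sh D _ s).mpr ht
        simp only [mem_preimage, φ, if_pos h1]
        rfl
      rw [this]
      apply (nu_snd R _).measure_preimage hE.nullMeasurableSet
      rcases hal with h1 | h1 | ⟨_, ⟨τ, rfl⟩, h2⟩ | h1
      · exact Or.inl h1.1
      · exact Or.inr h1.2
      · have := hP τ ((typ_u D τ).mp ht)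
        simp [node, this] at h2
      · exact Or.inr h1.1
    · have : J (sh s (mkr a)) ⁻¹' (φ ⁻¹' E) = Prod.fst ⁻¹' E := by
        ext d
        have h1 : ¬ Typ D (mrk (J (sh s (mkr a)) d)) := fun h => ht ((typ_sh D _ s).mp h)
        simp only [mem_preimage, φ, if_neg h1]
        rfl
      rw [this]
      apply (nu_fst R _).measure_preimage hE.nullMeasurableSet
      rcases hal with h1 | h1 | h1 | ⟨_, rfl⟩
      · exact Or.inl h1.2
      · exact Or.inr h1.1
      · exact Or.inr h1.1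
      · exact absurd ((typ_u D []).mpr hD.root) ht
  · apply mu_const P (measurable_mrk MM_countable.measurableSet).compl
    intro p s
    have : J (sh s (mkr p.1)) ⁻¹' (mrk ⁻¹' MM)ᶜ = ∅ := by
      ext d
      simp only [mem_preimage, mem_compl_iff, mem_empty_iff_false, iff_false, not_not]
      exact ⟨p.1, s, rfl⟩
    rw [this, measure_empty]
  · intro x _
    have h1 : Typ D (mrk (sh 1 x)) ↔ Typ D (mrk x) := typ_sh D (mrk x) 1
    by_cases ht : Typ D (mrk x)
    · simp only [φ, if_pos ht, if_pos (h1.mpr ht)]; rfl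
    · simp only [φ, if_neg ht, if_neg (fun h => ht (h1.mp h))]; rfl
  · intro x hx
    obtain ⟨N, hN⟩ := typ_local hD hx
    refine ⟨N, fun y hy hag => ?_⟩
    have h1 := hN _ hy fun i hi => congrArg Prod.fst (hag i hi)
    have h0 := hag 0 (by simp)
    by_cases ht : Typ D (mrk x)
    · simp only [φ, if_pos ht, if_pos (h1.mpr ht), h0]
    · simp only [φ, if_neg ht, if_neg (fun h => ht (h1.mp h)), h0]

section back

variable {P : List ℕ → Bool} {φ : XX → G} {X₀ : Set XX}

theorem ae_shift {p : XX → Prop} (h : ∀ᵐ x ∂(mu P), p x) : ∀ᵐ x ∂(mu P), p (sh 1 x) := by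
  rw [← mu_shift P] at h
  exact ae_of_ae_map (measurable_sh 1).aemeasurable h

theorem ae_dat {q : XX → Prop} (h : ∀ᵐ x ∂(mu P), q x) (p : Idx) (s : ℤ) :
    ∀ᵐ d ∂(dat (P (node p.1)) p), q (J (sh s (mkr p.1)) d) := by
  obtain ⟨w, hw, -, hle⟩ := mu_dom P p s
  have h1 := (Measure.absolutelyContinuous_of_le hle).ae_le h
  rw [Measure.ae_ennreal_smul_measure_eq hw] at h1
  exact ae_of_ae_map (measurable_J _).aemeasurable h1

theorem dat_allowed {t : Bool} {a : Mark} {U V : Finset ℤ} (h : allowed t a U V) (R : ℕ) :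
    dat t (a, U, V, R) = nu U V R := if_pos h

theorem ae_nu {q : XX → Prop} (h : ∀ᵐ x ∂(mu P), q x) {a : Mark} {U V : Finset ℤ}
    (hal : allowed (P (node a)) a U V) (R : ℕ) (s : ℤ) :
    ∀ᵐ d ∂(nu U V R), q (J (sh s (mkr a)) d) := by
  have := ae_dat h (a, U, V, R) s
  rwa [dat_allowed hal] at this

theorem ae_lam {q : XX → Prop} (h : ∀ᵐ x ∂(mu P), q x) (a : Mark) (s : ℤ) :
    ∀ᵐ d ∂lam, q (J (sh s (mkr a)) d) := by
  have := ae_nu h (a := a) (Or.inr (Or.inl ⟨rfl, rfl⟩)) 0 s
  rwa [nu_empty] at this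

theorem Fac.ae_mem (H : Fac (mu P) φ X₀) : ∀ᵐ x ∂(mu P), x ∈ X₀ := H.full

theorem Fac.ae_equi (H : Fac (mu P) φ X₀) (n : ℕ) :
    ∀ᵐ x ∂(mu P), φ (sh n x) = sh n (φ x) := by
  induction n with
  | zero => exact Eventually.of_forall fun x => by simp [sh_zero]
  | succ n ih =>
    filter_upwards [ae_shift ih, H.ae_mem] with x h1 h2
    rw [H.equi x h2, sh_sh, sh_sh] at h1
    push_cast
    exact h1

noncomputable def ee (φ : XX → G) (ε : F2) (n : ℤ) (x : XX) : ℝ :=
  sgn (φ x n + ε * φ x (n + 1))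

theorem measurable_ee0 (ε : F2) (n : ℤ) :
    Measurable fun z : G => sgn (z n + ε * z (n + 1)) :=
  measurable_sgn.comp ((measurable_pi_apply n).add
    ((measurable_pi_apply (X := fun _ : ℤ => F2) (n + 1)).const_mul ε))

theorem Fac.measurable_ee (H : Fac (mu P) φ X₀) (ε : F2) (n : ℤ) : Measurable (ee φ ε n) :=
  (measurable_ee0 ε n).comp H.meas

theorem Fac.coef_nu (H : Fac (mu P) φ X₀) {a : Mark} {U V : Finset ℤ}
    (hal : allowed (P (node a)) a U V) {R : ℕ} (hR : 0 < R) (s : ℤ) (ε : F2) :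
    ∫ d, ee φ ε 0 (J (sh s (mkr a)) d) * ch U V d ∂(nu U V R) = 0 := by
  obtain ⟨w, hw, hw', hle⟩ := mu_dom P (a, U, V, R) s
  rw [dat_allowed hal] at hle
  let T : ℕ := per a * R * 2
  have hT : 2 ≤ T := by
    have := Nat.mul_pos (per_pos a) hR
    simp only [T]; omega
  refine bessel (mu P) (nu U V R) (measurable_J _) hw hw' hle
    (fun k => ee φ ε ((k * T : ℕ) : ℤ)) (fun k => H.measurable_ee _ _) (fun k x => abs_sgn _) ?_
    (measurable_ch U V) (abs_ch U V) ?_
  · intro k k' hk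
    have hm := (measurable_ee0 ε ((k * T : ℕ) : ℤ)).mul (measurable_ee0 ε ((k' * T : ℕ) : ℤ))
    have := integral_map (μ := mu P) H.meas.aemeasurable hm.aestronglyMeasurable
    rw [H.map] at this
    refine Eq.trans this.symm (flip_zero ((k * T : ℕ) : ℤ) fun z => ?_)
    have h1 : k' * T ≠ k * T := fun h => hk (Nat.eq_of_mul_eq_mul_right (by omega) h).symm
    have h2 : k' * T + 1 ≠ k * T := by
      intro h
      have h3 : T ∣ k' * T + 1 := h ▸ Dvd.intro_left _ rfl
      have h4 : T ∣ 1 := (Nat.dvd_add_right (Dvd.intro_left _ rfl)).mp h3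
      have := Nat.le_of_dvd one_pos h4
      omega
    simp only [Pi.mul_apply, Pi.add_apply, Pi.single_eq_same]
    rw [Pi.single_eq_of_ne (by omega), Pi.single_eq_of_ne (by exact_mod_cast h1),
      Pi.single_eq_of_ne (by exact_mod_cast h2)]
    simp only [zero_add, add_assoc, sgn_add (1 : F2), sgn_one]
    ring
  · intro k
    have hm : Measurable fun d => ee φ ε 0 (J (sh s (mkr a)) d) * ch U V d :=
      ((H.measurable_ee ε 0).comp (measurable_J _)).mul (measurable_ch U V)
    have h1 := integral_map (μ := nu U V R) (continuous_sh2 ((k * T : ℕ) : ℤ)).measurable.aemeasurable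
      hm.aestronglyMeasurable
    rw [(nu_shift U V R _).map_eq] at h1
    rw [h1]
    apply integral_congr_ae
    filter_upwards [nu_ae U V R, ae_nu (H.ae_equi (k * T)) hal R s] with d hd1 hd2
    have e1 : sh ((k * T : ℕ) : ℤ) (sh s (mkr a)) = sh s (mkr a) := by
      rw [sh_sh, add_comm, ← sh_sh]
      congr 1
      have : ((k * T : ℕ) : ℤ) = per a * (k * R * 2) := by simp only [T]; push_cast; ring
      rw [this, sh_per_mul]
    have e2 : ∀ j : ℕ, sh ((j * R : ℕ) : ℤ) (cc U V d) = cc U V d := by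
      intro j
      induction j with
      | zero => simp [sh_zero]
      | succ j ih =>
        have : (((j + 1) * R : ℕ) : ℤ) = ((j * R : ℕ) : ℤ) + R := by push_cast; ring
        rw [this, ← sh_sh, mem_Hs.mp hd1, ih]
    congr 1
    · rw [sh_J, e1] at hd2
      simp only [ee, hd2, sh, zero_add]
      rw [add_comm (1 : ℤ)]
    · rw [ch_eq, ch_eq, cc_sh2]
      have : k * T = (k * per a * 2) * R := by simp only [T]; ring
      rw [this, e2]

theorem agree_J {N : ℕ} {m m' : Mk} {d d' : G × G} (h : Agree N m m') (h' : Agree2 N d d') :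
    Agree N (J m d) (J m' d') := by
  intro i hi
  simp only [J, h i hi, h'.1 i hi, h'.2 i hi]

theorem agree_sh {α : Type} {N : ℕ} {x y : ℤ → α} (h : Agree (N + 1) x y) :
    Agree N (sh 1 x) (sh 1 y) := by
  intro i hi
  apply h
  rw [abs_le] at hi ⊢
  push_cast
  omega

theorem ch_local (U V : Finset ℤ) : ∃ N, ∀ d d', Agree2 N d d' → ch U V d = ch U V d' := by
  refine ⟨(U ∪ V).sup Int.natAbs, fun d d' h => ?_⟩
  have key : ∀ i ∈ U ∪ V, |i| ≤ (((U ∪ V).sup Int.natAbs : ℕ) : ℤ) := by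
    intro i hi
    have := Finset.le_sup (f := Int.natAbs) hi
    rw [← Int.natCast_natAbs]
    exact_mod_cast this
  unfold ch chi
  congr 2
  · exact Finset.sum_congr rfl fun i hi => h.1 i (key i (Finset.mem_union_left _ hi))
  · exact Finset.sum_congr rfl fun i hi => h.2 i (key i (Finset.mem_union_right _ hi))

theorem Fac.coef (H : Fac (mu P) φ X₀) {a : Mark} {U V : Finset ℤ}
    (hal : allowed (P (node a)) a U V) (s : ℤ) (ε : F2) :
    ∫ d, ee φ ε 0 (J (sh s (mkr a)) d) * ch U V d ∂lam = 0 := by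
  have hX : ∀ᵐ x ∂(mu P), x ∈ X₀ ∧ sh 1 x ∈ X₀ := H.ae_mem.and (ae_shift H.ae_mem)
  refine transfer (((H.measurable_ee ε 0).comp (measurable_J _)).mul (measurable_ch U V))
    (fun d => by simp [abs_mul, ee, abs_sgn, abs_ch]) U V
    {d | J (sh s (mkr a)) d ∈ X₀ ∧ sh 1 (J (sh s (mkr a)) d) ∈ X₀} (ae_lam hX a s)
    (fun R => ae_nu hX hal R s) ?_ fun N => H.coef_nu hal (by omega) s ε
  rintro d ⟨h1, h2⟩
  obtain ⟨N1, hN1⟩ := H.fin _ h1
  obtain ⟨N2, hN2⟩ := H.fin _ h2
  obtain ⟨N3, hN3⟩ := ch_local U V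
  refine ⟨N1 + (N2 + 1) + N3, fun d' ⟨h1', h2'⟩ hag => ?_⟩
  have hJ := agree_J (m := sh s (mkr a)) (fun _ _ => rfl) hag
  have e1 := hN1 _ h1' (hJ.mono (by omega))
  have e2 := hN2 _ h2' (agree_sh (hJ.mono (by omega)))
  rw [H.equi _ h1, H.equi _ h1'] at e2
  have e3 := hN3 _ _ ⟨hag.1.mono (by omega), hag.2.mono (by omega)⟩
  simp only [ee, e1, e3]
  simp only [sh] at e2
  rw [e2]

noncomputable def FG (φ : XX → G) (m : Mk) (d : G × G) : ℝ := sgn (φ (J m d) 0)

theorem ee_zero (m : Mk) (d : G × G) : ee φ 0 0 (J m d) = FG φ m d := by simp [ee, FG]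

theorem Fac.measurable_FF (H : Fac (mu P) φ X₀) (m : Mk) : Measurable (FG φ m) :=
  measurable_sgn.comp ((measurable_pi_apply 0).comp (H.meas.comp (measurable_J m)))

theorem Fac.dich (H : Fac (mu P) φ X₀) {m : Mk} (hm : m ∈ MM) : TA (FG φ m) ∨ TB (FG φ m) := by
  obtain ⟨a, s, rfl⟩ := hm
  refine FF.dich (H.measurable_FF _) (fun d => abs_sgn _) ?_ ?_
  · have := H.coef (a := a) (Or.inr (Or.inl ⟨rfl, rfl⟩)) s 0
    simpa [ee_zero, ch, chi_empty] using this
  · intro U V hU hV
    have := H.coef (a := a) (Or.inl ⟨hU, hV⟩) s 0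
    simpa only [ee_zero] using this

theorem lam_shift (n : ℤ) : MeasurePreserving (sh2 n) lam lam := by
  rw [← nu_empty 0]; exact nu_shift _ _ _ _

theorem haar_shift (n : ℤ) : MeasurePreserving (sh n) (haar G) (haar G) := by
  let f : G →+ G := { toFun := sh n, map_zero' := rfl, map_add' := fun _ _ => rfl }
  apply AddMonoidHom.measurePreserving (f := f) (continuous_sh n) _ rfl
  intro y
  exact ⟨sh (-n) y, by show sh n (sh (-n) y) = y; rw [sh_sh, add_neg_cancel, sh_zero]⟩

theorem TA.shift {Fn : G × G → ℝ} (h : TA Fn) : TA fun d => Fn (sh2 1 d) := by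
  obtain ⟨f, h1, h2, h3, h4⟩ := h
  refine ⟨fun a => f (sh 1 a), h1.comp (haar_shift 1).measurable, fun a => h2 _, ?_,
    (lam_shift 1).quasiMeasurePreserving.ae h4⟩
  rw [← integral_map (haar_shift 1).measurable.aemeasurable h1.aestronglyMeasurable,
    (haar_shift 1).map_eq, h3]

theorem TB.shift {Fn : G × G → ℝ} (h : TB Fn) : TB fun d => Fn (sh2 1 d) := by
  obtain ⟨f, h1, h2, h3, h4⟩ := h
  refine ⟨fun a => f (sh 1 a), h1.comp (haar_shift 1).measurable, fun a => h2 _, ?_,
    (lam_shift 1).quasiMeasurePreserving.ae h4⟩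
  rw [← integral_map (haar_shift 1).measurable.aemeasurable h1.aestronglyMeasurable,
    (haar_shift 1).map_eq, h3]

theorem Fac.shift (H : Fac (mu P) φ X₀) {m : Mk} (hm : m ∈ MM) :
    TB (FG φ (sh 1 m)) ↔ TB (FG φ m) := by
  have hm' : sh 1 m ∈ MM := by
    obtain ⟨a, s, rfl⟩ := hm
    exact ⟨a, 1 + s, sh_sh _ _ _⟩
  have d1 := H.dich hm
  have d2 := H.dich hm'
  obtain ⟨a, s, rfl⟩ := hm
  have he : (fun d => ee φ 1 0 (J (sh s (mkr a)) d)) =ᵐ[lam]
      fun d => FG φ (sh s (mkr a)) d * FG φ (sh 1 (sh s (mkr a))) (sh2 1 d) := by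
    filter_upwards [ae_lam H.ae_mem a s] with d hd
    simp only [ee, FG, one_mul, sgn_add, ← sh_J, H.equi _ hd]
    rfl
  have hmeas : Measurable fun d => ee φ 1 0 (J (sh s (mkr a)) d) :=
    (H.measurable_ee 1 0).comp (measurable_J _)
  have hmix : ∀ U V : Finset ℤ, U.Nonempty → V.Nonempty →
      ∫ d, ee φ 1 0 (J (sh s (mkr a)) d) * ch U V d ∂lam = 0 :=
    fun U V hU hV => H.coef (a := a) (Or.inl ⟨hU, hV⟩) s 1
  constructor
  · intro h
    rcases d1 with h1 | h1
    · exact (no_mix h1 h.shift hmeas (fun d => abs_sgn _) he hmix).elim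
    · exact h1
  · intro h
    rcases d2 with h1 | h1
    · refine (no_mix h1.shift h hmeas (fun d => abs_sgn _) ?_ hmix).elim
      filter_upwards [he] with d hd
      rw [hd, mul_comm]
    · exact h1

theorem Fac.near (H : Fac (mu P) φ X₀) {m : Mk} (hm : m ∈ MM) :
    ∃ N, ∀ m' ∈ MM, Agree N m' m → 0 < ∫ d, FG φ m' d * FG φ m d ∂lam := by
  let E : ℕ → Set (G × G) := fun N => {d | ∃ t, ∀ y ∈ X₀, Agree N y (J m d) → φ y 0 = t}
  have hE : ∀ N, WD N (E N) := by
    rintro N d d' hdd ⟨t, ht⟩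
    refine ⟨t, fun y hy hag => ht y hy fun i hi => ?_⟩
    rw [hag i hi]
    exact (agree_J (fun _ _ => rfl) hdd i hi).symm
  have hmono : Monotone E := by
    rintro N N' hN d ⟨t, ht⟩
    exact ⟨t, fun y hy hag => ht y hy (hag.mono hN)⟩
  have hae : ∀ m ∈ MM, ∀ᵐ d ∂lam, J m d ∈ X₀ := by
    rintro _ ⟨a, s, rfl⟩
    exact ae_lam H.ae_mem a s
  have h1 : (1 : ENNReal) ≤ ⨆ N, lam (E N) := by
    rw [← hmono.measure_iUnion, ← measure_univ (μ := lam)]
    apply measure_mono_ae
    filter_upwards [hae m hm] with d hd _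
    obtain ⟨N, hN⟩ := H.fin _ hd
    exact mem_iUnion.mpr ⟨N, _, hN⟩
  have h2 : ENNReal.ofReal (1 / 2) < ⨆ N, lam (E N) :=
    lt_of_lt_of_le (ENNReal.ofReal_lt_one.mpr (by norm_num)) h1
  obtain ⟨N, hN⟩ := lt_iSup_iff.mp h2
  refine ⟨N, fun m' hm' hag => ?_⟩
  rw [integral_pm lam (h := fun d => FG φ m' d * FG φ m d)
    ((H.measurable_FF m').mul (H.measurable_FF m)) fun d => by simp [abs_mul, FG, abs_sgn]]
  have h3 : lam (E N) ≤ lam {d | FG φ m' d * FG φ m d = 1} := by
    apply measure_mono_ae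
    filter_upwards [hae m hm, hae m' hm'] with d hd hd' ⟨t, ht⟩
    show FG φ m' d * FG φ m d = 1
    rw [FG, FG, ht _ hd fun _ _ => rfl, ht _ hd' (agree_J hag ⟨fun _ _ => rfl, fun _ _ => rfl⟩),
      sgn_mul_self]
  have h4 : 1 / 2 < lam.real {d | FG φ m' d * FG φ m d = 1} :=
    (ENNReal.ofReal_lt_iff_lt_toReal (by norm_num) (measure_ne_top _ _)).mp (hN.trans_le h3)
  linarith

theorem Fac.branch (H : Fac (mu P) φ X₀) : ∃ x : ℕ → ℕ, ∀ n, P (pre x n) = true := by
  have hu : ∀ τ, u τ ∈ MM := fun τ => ⟨Sum.inl τ, 0, (sh_zero _).symm⟩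
  obtain ⟨x, hx⟩ := FF.branch (B := fun m => TB (FG φ m)) (fun m hm => H.shift hm) (by
    intro m hm
    obtain ⟨N, hN⟩ := H.near hm
    refine ⟨N, fun m' hm' hag => ?_⟩
    have h1 := hN m' hm' hag
    constructor
    · intro h
      rcases H.dich hm with h2 | h2
      · have := orth h2 h
        simp only [mul_comm (FG φ m _)] at this
        exact absurd this h1.ne'
      · exact h2
    · intro h
      rcases H.dich hm' with h2 | h2
      · exact absurd (orth h2 h) h1.ne'
      · exact h2) (by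
    refine (H.dich (hu [])).resolve_left (not_TA (H.measurable_FF _) (fun d => abs_sgn _) ?_)
    intro U
    have := H.coef (a := Sum.inl []) (U := U) (Or.inr (Or.inr (Or.inr ⟨rfl, rfl⟩))) 0 0
    simpa only [ee_zero, sh_zero, mkr] using this)
  refine ⟨x, fun n => ?_⟩
  by_contra hP
  refine not_TB (H.measurable_FF _) (fun d => abs_sgn _) ?_ (hx n)
  intro V
  have := H.coef (a := Sum.inl (pre x n)) (V := V)
    (Or.inr (Or.inr (Or.inl ⟨rfl, ⟨_, rfl⟩, by simpa [node] using hP⟩))) 0 0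
  simpa only [ee_zero, sh_zero, mkr] using this

end back

open Classical in
noncomputable def red (z : ℕ → Bool) : List ℕ → Bool := fun τ => decide (Star z τ)

theorem measurable_red : Measurable red := by
  refine measurable_pi_lambda _ fun τ => ?_
  apply measurable_to_bool
  have : (fun z => red z τ) ⁻¹' {true} = {z | Star z τ} := by
    ext z; simp [red]
  rw [this]
  exact measurableSet_Star τ

theorem red_iff (z : ℕ → Bool) : (∃ φ X₀, Fac (mu (red z)) φ X₀) ↔ z ∈ IF := by
  constructor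
  · rintro ⟨φ, X₀, H⟩
    obtain ⟨x, hx⟩ := H.branch
    exact konig (x := x) fun n => by simpa [red] using hx n
  · intro hz
    obtain ⟨D, hD, hD'⟩ := exists_good hz
    exact fac_of_good hD fun τ hτ => by simpa [red] using hD' τ hτ

theorem not_borel {S : Set (ProbabilityMeasure XX)}
    (hS : ∀ P, muP P ∈ S ↔ ∃ φ X₀, Fac (mu P) φ X₀) :
    ¬ MeasurableSet[borel (ProbabilityMeasure XX)] S := by
  intro h
  apply not_measurableSet_IF
  have h1 : MeasurableSet (muP ⁻¹' S) := by
    have := continuous_muP.borel_measurable h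
    rwa [← BorelSpace.measurable_eq] at this
  have h2 : IF = red ⁻¹' (muP ⁻¹' S) := by
    ext z
    rw [← red_iff, mem_preimage, mem_preimage, hS]
  rw [h2]
  exact measurable_red h1

end Pool.Agent.H342Z.FF
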