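import Pool.Agent.H342Z.FF.Tree

set_option autoImplicit false

namespace Pool.Agent.H342Z.FF

open Set

/-- shift by an integer -/
def sh {α : Type} (n : ℤ) (x : ℤ → α) : ℤ → α := fun i => x (i + n)

theorem sh_sh {α : Type} (n k : ℤ) (x : ℤ → α) : sh n (sh k x) = sh (n + k) x := by
  funext i; simp [sh, add_assoc]

theorem sh_zero {α : Type} (x : ℤ → α) : sh 0 x = x := by
  funext i; simp [sh]

/-- agreement on a window -/
def Agree {α : Type} (N : ℕ) (x y : ℤ → α) : Prop := ∀ i : ℤ, |i| ≤ (N : ℤ) → x i = y i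

theorem Agree.symm {α : Type} {N : ℕ} {x y : ℤ → α} (h : Agree N x y) : Agree N y x :=
  fun i hi => (h i hi).symm

theorem Agree.mono {α : Type} {N N' : ℕ} {x y : ℤ → α} (h : Agree N' x y) (hN : N ≤ N') :
    Agree N x y :=
  fun i hi => h i (hi.trans (by exact_mod_cast hN))

abbrev Mk := ℤ → Bool × Bool

def q (τ : List ℕ) : ℕ := Encodable.encode τ + 1

theorem q_pos (τ : List ℕ) : 0 < q τ := Nat.succ_pos _

theorem q_inj {τ τ' : List ℕ} (h : q τ = q τ') : τ = τ' :=
  Encodable.encode_injective (Nat.succ_injective h)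

def par : List ℕ → Bool
  | [] => false
  | _ :: τ => !par τ

def u (τ : List ℕ) : Mk := fun i => (par τ, decide ((q τ : ℤ) ∣ i))

def L1 (τ : List ℕ) (j : ℕ) : ℕ := q τ + 1 + j

def LL (τ : List ℕ) (j k : ℕ) : ℕ := L1 τ j + (2 * q (j :: τ) + k)

def l (τ : List ℕ) (j k : ℕ) : Mk := fun i =>
  if i % (LL τ j k : ℤ) < (L1 τ j : ℤ) then u τ i else u (j :: τ) i

abbrev Mark := List ℕ ⊕ (List ℕ × ℕ × ℕ)

def mkr : Mark → Mk
  | Sum.inl τ => u τ
  | Sum.inr p => l p.1 p.2.1 p.2.2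

def per : Mark → ℕ
  | Sum.inl τ => q τ
  | Sum.inr p => LL p.1 p.2.1 p.2.2 * q p.1 * q (p.2.1 :: p.1)

theorem LL_pos (τ : List ℕ) (j k : ℕ) : 0 < LL τ j k := by
  unfold LL L1; omega

theorem per_pos (a : Mark) : 0 < per a := by
  rcases a with τ | ⟨τ, j, k⟩
  · exact q_pos τ
  · exact Nat.mul_pos (Nat.mul_pos (LL_pos _ _ _) (q_pos _)) (q_pos _)

theorem u_add {τ : List ℕ} {n : ℤ} (h : (q τ : ℤ) ∣ n) (i : ℤ) : u τ (i + n) = u τ i := by
  simp only [u, Prod.mk.injEq, true_and, decide_eq_decide]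
  exact dvd_add_left h

theorem sh_per_mul (a : Mark) (n : ℤ) : sh (per a * n) (mkr a) = mkr a := by
  funext i
  rcases a with τ | ⟨τ, j, k⟩
  · exact u_add (dvd_mul_right _ _) i
  · simp only [sh, mkr, per, l]
    have h1 : (i + ((LL τ j k * q τ * q (j :: τ) : ℕ) : ℤ) * n) % (LL τ j k : ℤ) =
        i % (LL τ j k : ℤ) := by
      have : ((LL τ j k * q τ * q (j :: τ) : ℕ) : ℤ) * n =
          (LL τ j k : ℤ) * (q τ * q (j :: τ) * n) := by push_cast; ring
      rw [this, Int.add_mul_emod_self_left]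
    rw [h1, u_add, u_add]
    · push_cast
      exact Dvd.dvd.mul_right (Dvd.intro_left _ rfl) _
    · push_cast
      exact Dvd.dvd.mul_right (Dvd.dvd.mul_right (Dvd.intro_left _ rfl) _) _

/-- all markers -/
def MM : Set Mk := {m | ∃ a : Mark, ∃ s : ℤ, m = sh s (mkr a)}

theorem MM_countable : MM.Countable := by
  have : MM = range fun p : Mark × ℤ => sh p.2 (mkr p.1) := by
    ext m
    simp only [MM, mem_ofPred_eq, mem_range, Prod.exists]
    constructor
    · rintro ⟨a, s, rfl⟩; exact ⟨a, s, rfl⟩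
    · rintro ⟨a, s, rfl⟩; exact ⟨a, s, rfl⟩
  rw [this]
  exact countable_range _

theorem sh_mod (a : Mark) (s : ℤ) : ∃ t : ℕ, t < per a ∧ sh s (mkr a) = sh t (mkr a) := by
  have hp : (0 : ℤ) < per a := by exact_mod_cast per_pos a
  refine ⟨(s % per a).toNat, ?_, ?_⟩
  · have := Int.emod_lt_of_pos s hp
    have h2 := Int.emod_nonneg s hp.ne'
    omega
  · rw [Int.toNat_of_nonneg (Int.emod_nonneg s hp.ne')]
    conv_rhs => rw [← sh_per_mul a (s / per a), sh_sh]
    congr 1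
    exact (Int.emod_add_mul_ediv s (per a)).symm

def Pat (τ : List ℕ) (m : Mk) (i : ℤ) : Prop := ∀ t : ℕ, t ≤ q τ → m (i + t) = u τ t

def Vis (τ : List ℕ) (m : Mk) : Prop := ∃ i, Pat τ m i

theorem vis_sh (τ : List ℕ) (m : Mk) (s : ℤ) : Vis τ (sh s m) ↔ Vis τ m := by
  constructor
  · rintro ⟨i, hi⟩
    refine ⟨i + s, fun t ht => ?_⟩
    rw [← hi t ht, sh]
    congr 1; ring
  · rintro ⟨i, hi⟩
    refine ⟨i - s, fun t ht => ?_⟩
    rw [← hi t ht, sh]
    congr 1; ring

theorem pat_u {τ τ' : List ℕ} {i : ℤ} (h : Pat τ' (u τ) i) : τ' = τ := by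
  have h0 := h 0 (Nat.zero_le _)
  have h1 := h (q τ') le_rfl
  simp only [u, Prod.mk.injEq, decide_eq_decide, Nat.cast_zero, add_zero, dvd_zero, iff_true,
    dvd_refl] at h0 h1
  have h2 : (q τ : ℤ) ∣ q τ' := (dvd_add_right h0.2).mp h1.2
  have h3 : q τ ≤ q τ' := Nat.le_of_dvd (q_pos _) (by exact_mod_cast h2)
  have h4 := h (q τ) h3
  simp only [u, Prod.mk.injEq, decide_eq_decide] at h4
  have h5 : (q τ' : ℤ) ∣ q τ := h4.2.mp (dvd_add h0.2 (dvd_refl _))
  have h6 : q τ' ≤ q τ := Nat.le_of_dvd (q_pos _) (by exact_mod_cast h5)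
  exact q_inj (le_antisymm h6 h3)

theorem pat_l {τ τ' : List ℕ} {j k : ℕ} {i : ℤ} (h : Pat τ' (l τ j k) i) :
    τ' = τ ∨ τ' = j :: τ := by
  by_cases hp : par τ' = par τ
  · left
    apply pat_u (i := i)
    intro t ht
    have h1 := h t ht
    unfold l at h1
    split_ifs at h1 with h2
    · exact h1
    · exfalso
      have := congrArg Prod.fst h1
      simp only [u, par, hp] at this
      simp at this
  · right
    apply pat_u (i := i)
    intro t ht
    have h1 := h t ht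
    unfold l at h1
    split_ifs at h1 with h2
    · exfalso
      have := congrArg Prod.fst h1
      simp only [u] at this
      exact hp this.symm
    · exact h1

theorem vis_u (τ : List ℕ) : Vis τ (u τ) := ⟨0, fun t _ => by simp⟩

theorem l_eq_left {τ : List ℕ} {j k : ℕ} {i : ℤ} (h0 : 0 ≤ i) (h1 : i < L1 τ j) :
    l τ j k i = u τ i := by
  unfold l
  have : i % (LL τ j k : ℤ) = i := by
    apply Int.emod_eq_of_lt h0
    unfold LL; push_cast; omega
  rw [this, if_pos h1]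

theorem l_eq_right {τ : List ℕ} {j k : ℕ} {i : ℤ} (h0 : i < 0)
    (h1 : -((2 * q (j :: τ) + k : ℕ) : ℤ) ≤ i) : l τ j k i = u (j :: τ) i := by
  unfold l
  have : i % (LL τ j k : ℤ) = i + LL τ j k := by
    rw [← Int.add_emod_right i]
    apply Int.emod_eq_of_lt
    · unfold LL; push_cast at h1 ⊢; omega
    · omega
  rw [this, if_neg]
  unfold LL; push_cast at h1 ⊢; omega

theorem vis_l1 (τ : List ℕ) (j k : ℕ) : Vis τ (l τ j k) := by
  refine ⟨0, fun t ht => ?_⟩
  rw [zero_add, l_eq_left (by omega)]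
  unfold L1; push_cast; omega

theorem vis_l2 (τ : List ℕ) (j k : ℕ) : Vis (j :: τ) (l τ j k) := by
  refine ⟨-(2 * q (j :: τ)), fun t ht => ?_⟩
  have := q_pos (j :: τ)
  rw [l_eq_right (by omega) (by push_cast; omega), add_comm, u_add]
  exact (dvd_neg).mpr (Dvd.intro_left _ rfl)

theorem vis_window {τ : List ℕ} {m : Mk} (h : Vis τ m) : ∃ N, ∀ m', Agree N m' m → Vis τ m' := by
  obtain ⟨i, hi⟩ := h
  refine ⟨i.natAbs + q τ, fun m' hm' => ⟨i, fun t ht => ?_⟩⟩
  rw [← hi t ht]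
  apply hm'
  rw [abs_le]
  push_cast
  constructor
  · have := neg_abs_le i
    omega
  · have := le_abs_self i
    omega

/-- the type of a marker -/
def Typ (D : List ℕ → Prop) (m : Mk) : Prop := ∀ τ, Vis τ m → D τ

theorem typ_sh (D : List ℕ → Prop) (m : Mk) (s : ℤ) : Typ D (sh s m) ↔ Typ D m := by
  simp only [Typ, vis_sh]

theorem typ_u (D : List ℕ → Prop) (τ : List ℕ) : Typ D (u τ) ↔ D τ := by
  constructor
  · intro h; exact h τ (vis_u τ)
  · rintro h τ' ⟨i, hi⟩
    rw [pat_u hi]; exact h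

theorem vis_MM {m : Mk} (hm : m ∈ MM) :
    ∃ a b : List ℕ, ∀ τ, Vis τ m → τ = a ∨ τ = b := by
  obtain ⟨a, s, rfl⟩ := hm
  rcases a with τ | ⟨τ, j, k⟩
  · refine ⟨τ, τ, fun τ' h => ?_⟩
    rw [vis_sh] at h
    obtain ⟨i, hi⟩ := h
    exact Or.inl (pat_u hi)
  · refine ⟨τ, j :: τ, fun τ' h => ?_⟩
    rw [vis_sh] at h
    obtain ⟨i, hi⟩ := h
    exact pat_l hi

theorem l_phase (τ : List ℕ) (j k : ℕ) (i : ℤ) :
    ∃ t : ℕ, t ≤ L1 τ j ∧ (l τ j k (i + t)).1 = !par τ := by
  have hL : (0 : ℤ) < LL τ j k := by exact_mod_cast LL_pos τ j k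
  have h0 := Int.emod_nonneg i hL.ne'
  by_cases h : i % (LL τ j k : ℤ) < (L1 τ j : ℤ)
  · refine ⟨(L1 τ j - i % (LL τ j k : ℤ)).toNat, by omega, ?_⟩
    unfold l
    rw [if_neg]
    · rfl
    · rw [Int.toNat_of_nonneg (by omega)]
      have h1 : i + ((L1 τ j : ℤ) - i % (LL τ j k : ℤ)) =
          L1 τ j + (LL τ j k : ℤ) * (i / (LL τ j k : ℤ)) := by
        have := Int.emod_add_mul_ediv i (LL τ j k)
        omega
      rw [h1, Int.add_mul_emod_self_left, Int.emod_eq_of_lt (by omega)]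
      · omega
      · have := q_pos (j :: τ)
        unfold LL; push_cast; omega
  · refine ⟨0, Nat.zero_le _, ?_⟩
    unfold l
    simp only [Nat.cast_zero, add_zero]
    rw [if_neg h]
    rfl

theorem typ_local {D : List ℕ → Prop} (hD : Good D) {m : Mk} (hm : m ∈ MM) :
    ∃ N, ∀ m' ∈ MM, Agree N m' m → (Typ D m' ↔ Typ D m) := by
  by_cases ht : Typ D m
  · obtain ⟨a, s, rfl⟩ := hm
    rcases a with τ | ⟨τ, j, k⟩
    · have hτ : D τ := ht τ ((vis_sh _ _ _).mpr (vis_u τ))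
      obtain ⟨y, hy⟩ := hD.down τ hτ
      obtain ⟨N, hN⟩ := vis_window ((vis_sh τ (u τ) s).mpr (vis_u τ))
      refine ⟨max N (L1 τ y), fun m' hm' hag => ⟨fun _ => ht, fun _ => ?_⟩⟩
      have hv := hN m' (hag.mono (le_max_left _ _))
      obtain ⟨a', s', rfl⟩ := hm'
      rw [typ_sh]
      rw [vis_sh] at hv
      obtain ⟨i, hi⟩ := hv
      rcases a' with τ' | ⟨τ', j, k⟩
      · have := pat_u hi
        subst this
        exact (typ_u D τ).mpr hτ
      · have h2 : D (j :: τ') := by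
          rcases pat_l hi with h1 | h1
          · subst h1
            apply hy
            by_contra hj
            push Not at hj
            obtain ⟨t, ht1, ht2⟩ := l_phase τ j k s'
            have h3 := hag t (by
              rw [abs_of_nonneg (by omega)]
              have : t ≤ max N (L1 τ y) := by
                refine le_trans ?_ (le_max_right _ _)
                unfold L1 at ht1 ⊢; omega
              exact_mod_cast this)
            have h4 := congrArg Prod.fst h3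
            simp only [sh, mkr] at h4
            rw [add_comm, ht2] at h4
            simp [u] at h4
          · rw [← h1]; exact hτ
        rintro τ'' ⟨i', hi'⟩
        rcases pat_l hi' with h1 | h1
        · rw [h1]; exact hD.up _ _ h2
        · rw [h1]; exact h2
    · obtain ⟨N1, hN1⟩ := vis_window ((vis_sh τ (l τ j k) s).mpr (vis_l1 τ j k))
      obtain ⟨N2, hN2⟩ := vis_window ((vis_sh (j :: τ) (l τ j k) s).mpr (vis_l2 τ j k))
      have d1 : D τ := ht τ ((vis_sh _ _ _).mpr (vis_l1 τ j k))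
      have d2 : D (j :: τ) := ht _ ((vis_sh _ _ _).mpr (vis_l2 τ j k))
      refine ⟨max N1 N2, fun m' hm' hag => ⟨fun _ => ht, fun _ => ?_⟩⟩
      have v1 := hN1 m' (hag.mono (le_max_left _ _))
      have v2 := hN2 m' (hag.mono (le_max_right _ _))
      obtain ⟨a, b, hab⟩ := vis_MM hm'
      have hne : τ ≠ j :: τ := fun h => by
        have := congrArg List.length h
        simp at this
      intro τ' hτ'
      rcases hab _ v1 with h1 | h1 <;> rcases hab _ v2 with h2 | h2 <;>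
        rcases hab _ hτ' with h3 | h3
      all_goals first
        | exact absurd (h1.trans h2.symm) hne
        | (rw [h3, ← h1]; exact d1)
        | (rw [h3, ← h2]; exact d2)
  · have ht' := ht
    unfold Typ at ht'
    push Not at ht'
    obtain ⟨τ, h1, h2⟩ := ht'
    obtain ⟨N, hN⟩ := vis_window h1
    exact ⟨N, fun m' _ hag => ⟨fun h => absurd (h τ (hN m' hag)) h2, fun h => absurd h ht⟩⟩

theorem approx_left (τ : List ℕ) (N : ℕ) :
    ∃ j, ∀ k, ∃ s, Agree N (sh s (l τ j k)) (u τ) := by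
  refine ⟨(q τ + 1) * N, fun k => ⟨q τ * N, fun i hi => ?_⟩⟩
  have hq := q_pos τ
  have h1 : (N : ℤ) ≤ q τ * N := by
    have : N ≤ q τ * N := Nat.le_mul_of_pos_left _ hq
    exact_mod_cast this
  rw [abs_le] at hi
  unfold sh
  rw [l_eq_left (by omega), u_add (dvd_mul_right _ _)]
  unfold L1; push_cast
  nlinarith

theorem approx_right (τ : List ℕ) (j N : ℕ) :
    ∃ k s, Agree N (sh s (l τ j k)) (u (j :: τ)) := by
  refine ⟨q (j :: τ) * (N + 1) + N, -(q (j :: τ) * (N + 1)), fun i hi => ?_⟩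
  have hq := q_pos (j :: τ)
  have h1 : (N : ℤ) + 1 ≤ q (j :: τ) * (N + 1) := by
    have : N + 1 ≤ q (j :: τ) * (N + 1) := Nat.le_mul_of_pos_left _ hq
    exact_mod_cast this
  rw [abs_le] at hi
  unfold sh
  rw [l_eq_right (by omega), u_add ((dvd_neg).mpr (dvd_mul_right _ _))]
  push_cast
  omega

theorem branch {B : Mk → Prop} (h1 : ∀ m ∈ MM, B (sh 1 m) ↔ B m)
    (h2 : ∀ m ∈ MM, ∃ N, ∀ m' ∈ MM, Agree N m' m → (B m' ↔ B m)) (h3 : B (u [])) :
    ∃ x : ℕ → ℕ, ∀ n, B (u (pre x n)) := by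
  have hs : ∀ (a : Mark) (s : ℤ), B (sh s (mkr a)) ↔ B (mkr a) := by
    intro a s
    induction s using Int.induction_on with
    | zero => rw [sh_zero]
    | succ n ih => rw [← ih, ← h1 _ ⟨a, n, rfl⟩, sh_sh, add_comm]
    | pred n ih =>
      rw [← ih, ← h1 _ ⟨a, -(n : ℤ) - 1, rfl⟩, sh_sh]
      congr! 2; ring
  have hu : ∀ τ, u τ ∈ MM := fun τ => ⟨Sum.inl τ, 0, (sh_zero _).symm⟩
  have step : ∀ τ, B (u τ) → ∃ j, B (u (j :: τ)) := by
    intro τ hτ
    obtain ⟨N, hN⟩ := h2 _ (hu τ)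
    obtain ⟨j, hj⟩ := approx_left τ N
    obtain ⟨N', hN'⟩ := h2 _ (hu (j :: τ))
    obtain ⟨k, s', hk⟩ := approx_right τ j N'
    obtain ⟨s, hs'⟩ := hj k
    refine ⟨j, ?_⟩
    have e1 := hN _ ⟨Sum.inr (τ, j, k), s, rfl⟩ hs'
    have e2 := hN' _ ⟨Sum.inr (τ, j, k), s', rfl⟩ hk
    rw [hs] at e1 e2
    exact e2.mp (e1.mpr hτ)
  choose! f hf using step
  let g : ℕ → List ℕ := fun n => Nat.rec [] (fun _ τ => f τ :: τ) n
  have hg : ∀ n, pre (fun n => f (g n)) n = g n := by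
    intro n
    induction n with
    | zero => rfl
    | succ n ih => simp only [pre, ih]; rfl
  refine ⟨fun n => f (g n), fun n => ?_⟩
  rw [hg]
  induction n with
  | zero => exact h3
  | succ n ih => exact hf _ ih

end Pool.Agent.H342Z.FF
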