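import Pool.Agent.H342Z.FF.Fourier
import Pool.Agent.H342Z.FF.Marker

set_option autoImplicit false

namespace Pool.Agent.H342Z.FF

open Set Filter Topology MeasureTheory MeasureTheory.Measure

/-- convolution with the indicator of a finite set -/
def conv (U : Finset ℤ) : G →+ G where
  toFun a := fun i => ∑ v ∈ U, a (i + v)
  map_zero' := by funext i; simp
  map_add' a b := by funext i; simp [Finset.sum_add_distrib]

theorem conv_apply (U : Finset ℤ) (a : G) (i : ℤ) : conv U a i = ∑ v ∈ U, a (i + v) := rfl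

theorem continuous_conv (U : Finset ℤ) : Continuous (conv U) :=
  continuous_pi fun i => continuous_finsetSum _ fun v _ => continuous_apply (i + v)

theorem conv_empty (a : G) : conv ∅ a = 0 := by funext i; simp [conv_apply]

theorem conv_sh (U : Finset ℤ) (n : ℤ) (a : G) : conv U (sh n a) = sh n (conv U a) := by
  funext i
  simp only [conv_apply, sh]
  refine Finset.sum_congr rfl fun v _ => ?_
  congr 1; ring

theorem conv_surj {U : Finset ℤ} (hU : U.Nonempty) : Function.Surjective (conv U) := by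
  classical
  intro y
  -- solve on finite windows, then use compactness
  have fin : ∀ n : ℕ, ∃ z : G, ∀ i : ℤ, -(n : ℤ) ≤ i → ∀ k : ℕ, i < -(n : ℤ) + k →
      k ≤ 2 * n + 1 → conv U z i = y i := by
    intro n
    have : ∀ k : ℕ, ∃ z : G, ∀ i : ℤ, -(n : ℤ) ≤ i → i < -(n : ℤ) + k → conv U z i = y i := by
      intro k
      induction k with
      | zero => exact ⟨0, fun i h1 h2 => by omega⟩
      | succ k ih =>
        obtain ⟨z, hz⟩ := ih
        let i0 : ℤ := -(n : ℤ) + k
        let m := U.max' hU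
        refine ⟨z + Pi.single (i0 + m) (y i0 - conv U z i0), fun i h1 h2 => ?_⟩
        rw [map_add, Pi.add_apply]
        by_cases hi : i = i0
        · subst hi
          rw [conv_apply U (Pi.single _ _), Finset.sum_eq_single m]
          · simp
          · intro b _ hb
            rw [Pi.single_eq_of_ne]
            intro h; apply hb; linarith
          · intro h; exact absurd (U.max'_mem hU) h
        · rw [hz i h1 (by push_cast at h2; omega), conv_apply U (Pi.single _ _),
            Finset.sum_eq_zero, add_zero]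
          intro v hv
          rw [Pi.single_eq_of_ne]
          have := U.le_max' v hv
          push_cast at h2
          omega
    obtain ⟨z, hz⟩ := this (2 * n + 1)
    exact ⟨z, fun i h1 k h2 h3 => hz i h1 (by omega)⟩
  choose z hz using fin
  have hcl : IsClosed (range (conv U)) := (isCompact_range (continuous_conv U)).isClosed
  have ht : Tendsto (fun n => conv U (z n)) atTop (𝓝 y) := by
    rw [tendsto_pi_nhds]
    intro i
    apply tendsto_const_nhds.congr'
    filter_upwards [eventually_ge_atTop i.natAbs] with n hn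
    exact (hz n i (by omega) (2 * n + 1) (by omega) le_rfl).symm
  exact hcl.mem_of_tendsto ht (Eventually.of_forall fun n => mem_range_self _)

/-- the shift on the data group -/
def sh2 (n : ℤ) : G × G →+ G × G where
  toFun d := (sh n d.1, sh n d.2)
  map_zero' := rfl
  map_add' _ _ := rfl

theorem continuous_sh {α : Type} [TopologicalSpace α] (n : ℤ) :
    Continuous (sh n : (ℤ → α) → ℤ → α) :=
  continuous_pi fun i => continuous_apply (i + n)

theorem continuous_sh2 (n : ℤ) : Continuous (sh2 n) :=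
  ((continuous_sh n).comp continuous_fst).prodMk ((continuous_sh n).comp continuous_snd)

theorem sh2_sh2 (n k : ℤ) (d : G × G) : sh2 n (sh2 k d) = sh2 (n + k) d := by
  simp [sh2, sh_sh]

theorem sh2_zero (d : G × G) : sh2 0 d = d := by
  simp [sh2, sh_zero]

def cc (U V : Finset ℤ) (d : G × G) : G := conv U d.1 + conv V d.2

theorem cc_sh2 (U V : Finset ℤ) (n : ℤ) (d : G × G) : cc U V (sh2 n d) = sh n (cc U V d) := by
  simp only [cc, sh2, AddMonoidHom.coe_mk, ZeroHom.coe_mk, conv_sh]
  rfl

theorem ch_eq (U V : Finset ℤ) (d : G × G) : ch U V d = sgn (cc U V d 0) := by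
  simp [ch, chi, cc, conv_apply, sgn_add]

def Hs (U V : Finset ℤ) (R : ℕ) : AddSubgroup (G × G) where
  carrier := {d | sh R (cc U V d) = cc U V d}
  zero_mem' := by
    simp only [mem_ofPred_eq, cc, Prod.fst_zero, map_zero, Prod.snd_zero, add_zero]
    rfl
  add_mem' := by
    intro a b ha hb
    simp only [mem_ofPred_eq] at ha hb ⊢
    have : cc U V (a + b) = cc U V a + cc U V b := by
      simp only [cc, Prod.fst_add, Prod.snd_add, map_add]; abel
    rw [this]
    conv_rhs => rw [← ha, ← hb]
    rfl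
  neg_mem' := by
    intro a ha
    simp only [mem_ofPred_eq] at ha ⊢
    have : cc U V (-a) = - cc U V a := by
      simp only [cc, Prod.fst_neg, Prod.snd_neg, map_neg]; abel
    rw [this]
    conv_rhs => rw [← ha]
    rfl

theorem mem_Hs {U V : Finset ℤ} {R : ℕ} {d : G × G} :
    d ∈ Hs U V R ↔ sh R (cc U V d) = cc U V d := Iff.rfl

theorem continuous_cc (U V : Finset ℤ) : Continuous (cc U V) :=
  ((continuous_conv U).comp continuous_fst).add ((continuous_conv V).comp continuous_snd)

theorem isClosed_Hs (U V : Finset ℤ) (R : ℕ) : IsClosed (Hs U V R : Set (G × G)) :=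
  isClosed_eq ((continuous_sh R).comp (continuous_cc U V)) (continuous_cc U V)

instance (U V : Finset ℤ) (R : ℕ) : CompactSpace (Hs U V R) :=
  isCompact_iff_compactSpace.mp (isClosed_Hs U V R).isCompact

noncomputable def nu (U V : Finset ℤ) (R : ℕ) : Measure (G × G) :=
  (haar (Hs U V R)).map Subtype.val

instance (U V : Finset ℤ) (R : ℕ) : IsProbabilityMeasure (nu U V R) :=
  Measure.isProbabilityMeasure_map measurable_subtype_coe.aemeasurable

theorem nu_map {U V : Finset ℤ} {R : ℕ} {L : Type} [AddGroup L] [TopologicalSpace L]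
    [IsTopologicalAddGroup L] [CompactSpace L] [MeasurableSpace L] [BorelSpace L]
    (ρ : Measure L) [IsAddHaarMeasure ρ] [IsProbabilityMeasure ρ] (f : G × G →+ L)
    (hf : Continuous f) (hs : ∀ y, ∃ d ∈ Hs U V R, f d = y) :
    MeasurePreserving f (nu U V R) ρ := by
  have h1 : MeasurePreserving (f.comp (Hs U V R).subtype) (haar (Hs U V R)) ρ := by
    apply AddMonoidHom.measurePreserving (f := f.comp (Hs U V R).subtype)
      (hf.comp continuous_subtype_val)
    · intro y
      obtain ⟨d, hd, rfl⟩ := hs y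
      exact ⟨⟨d, hd⟩, rfl⟩
    · simp
  refine ⟨hf.measurable, ?_⟩
  rw [nu, Measure.map_map hf.measurable measurable_subtype_coe]
  exact h1.map_eq

theorem sh2_mem {U V : Finset ℤ} {R : ℕ} (n : ℤ) {d : G × G} (h : d ∈ Hs U V R) :
    sh2 n d ∈ Hs U V R := by
  rw [mem_Hs] at h ⊢
  rw [cc_sh2, sh_sh, add_comm, ← sh_sh, h]

theorem nu_shift (U V : Finset ℤ) (R : ℕ) (n : ℤ) :
    MeasurePreserving (sh2 n) (nu U V R) (nu U V R) := by
  let f : Hs U V R →+ Hs U V R :=
    ((sh2 n).comp (Hs U V R).subtype).codRestrict _ fun d => sh2_mem n d.2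
  have hf : Continuous f :=
    Continuous.subtype_mk ((continuous_sh2 n).comp continuous_subtype_val) _
  have h1 : MeasurePreserving f (haar (Hs U V R)) (haar (Hs U V R)) := by
    apply AddMonoidHom.measurePreserving hf _ rfl
    intro y
    refine ⟨⟨sh2 (-n) y, sh2_mem _ y.2⟩, Subtype.ext ?_⟩
    show sh2 n (sh2 (-n) y) = y
    rw [sh2_sh2, add_neg_cancel, sh2_zero]
  refine ⟨(continuous_sh2 n).measurable, ?_⟩
  rw [nu, Measure.map_map (continuous_sh2 n).measurable measurable_subtype_coe]
  conv_rhs => rw [← h1.map_eq, Measure.map_map measurable_subtype_coe hf.measurable]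
  rfl

theorem nu_ae (U V : Finset ℤ) (R : ℕ) : ∀ᵐ d ∂(nu U V R), d ∈ Hs U V R := by
  exact (ae_map_iff measurable_subtype_coe.aemeasurable (isClosed_Hs U V R).measurableSet).mpr
    (Eventually.of_forall fun d => d.2)

theorem nu_empty (R : ℕ) : nu ∅ ∅ R = lam := by
  have := (nu_map (U := ∅) (V := ∅) (R := R) lam (AddMonoidHom.id _) continuous_id (by
    intro y
    refine ⟨y, ?_, rfl⟩
    rw [mem_Hs]
    simp only [cc, conv_empty, add_zero]
    rfl)).map_eq
  simpa using this

theorem neg_G (a : G) : a + a = 0 := by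
  funext i
  have : ∀ t : F2, t + t = 0 := by decide
  exact this _

theorem nu_fst {U V : Finset ℤ} (R : ℕ) (h : V.Nonempty ∨ U = ∅) :
    MeasurePreserving Prod.fst (nu U V R) (haar G) := by
  apply nu_map (haar G) (AddMonoidHom.fst G G) continuous_fst
  intro y
  rcases h with h | rfl
  · obtain ⟨b, hb⟩ := conv_surj h (conv U y)
    refine ⟨(y, b), ?_, rfl⟩
    rw [mem_Hs]
    simp only [cc, hb, neg_G]
    rfl
  · refine ⟨(y, 0), ?_, rfl⟩
    rw [mem_Hs]
    simp only [cc, conv_empty, map_zero, add_zero]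
    rfl

theorem nu_snd {U V : Finset ℤ} (R : ℕ) (h : U.Nonempty ∨ V = ∅) :
    MeasurePreserving Prod.snd (nu U V R) (haar G) := by
  apply nu_map (haar G) (AddMonoidHom.snd G G) continuous_snd
  intro y
  rcases h with h | rfl
  · obtain ⟨b, hb⟩ := conv_surj h (conv V y)
    refine ⟨(b, y), ?_, rfl⟩
    rw [mem_Hs]
    simp only [cc, hb, neg_G]
    rfl
  · refine ⟨(0, y), ?_, rfl⟩
    rw [mem_Hs]
    simp only [cc, conv_empty, map_zero, add_zero]
    rfl

/-- restriction to a window -/
def res (N : ℕ) : G × G →+ (Finset.Icc (-(N : ℤ)) N → F2 × F2) where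
  toFun d := fun i => (d.1 i, d.2 i)
  map_zero' := rfl
  map_add' _ _ := rfl

theorem continuous_res (N : ℕ) : Continuous (res N) :=
  continuous_pi fun i => ((continuous_apply (i : ℤ)).comp continuous_fst).prodMk
    ((continuous_apply (i : ℤ)).comp continuous_snd)

theorem res_surj (U V : Finset ℤ) (N : ℕ) (y : Finset.Icc (-(N : ℤ)) N → F2 × F2) :
    ∃ d ∈ Hs U V (2 * N + 1), res N d = y := by
  have hr : ∀ i : ℤ, (i + N) % (2 * N + 1) - N ∈ Finset.Icc (-(N : ℤ)) N := by
    intro i
    have h1 := Int.emod_nonneg (i + N) (show (2 * (N : ℤ) + 1) ≠ 0 by omega)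
    have h2 := Int.emod_lt_of_pos (i + N) (show 0 < (2 * (N : ℤ) + 1) by omega)
    rw [Finset.mem_Icc]
    omega
  let r : ℤ → Finset.Icc (-(N : ℤ)) N := fun i => ⟨_, hr i⟩
  have r1 : ∀ i : ℤ, r (i + ((2 * N + 1 : ℕ) : ℤ)) = r i := by
    intro i
    apply Subtype.ext
    show (i + ((2 * N + 1 : ℕ) : ℤ) + N) % (2 * N + 1) - N = (i + N) % (2 * N + 1) - N
    congr 1
    push_cast
    rw [add_right_comm, Int.add_emod_right]
  have r2 : ∀ i : Finset.Icc (-(N : ℤ)) N, r i = i := by
    rintro ⟨i, hi⟩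
    apply Subtype.ext
    show (i + N) % (2 * N + 1) - N = i
    rw [Finset.mem_Icc] at hi
    rw [Int.emod_eq_of_lt (by omega) (by omega)]
    ring
  let d : G × G := (fun i => (y (r i)).1, fun i => (y (r i)).2)
  refine ⟨d, ?_, ?_⟩
  · rw [mem_Hs, ← cc_sh2]
    congr 1
    apply Prod.ext
    · funext i
      show (y (r (i + _))).1 = (y (r i)).1
      rw [r1]
    · funext i
      show (y (r (i + _))).2 = (y (r i)).2
      rw [r1]
  · funext i
    show ((y (r i)).1, (y (r i)).2) = y i
    rw [r2]

def Agree2 (N : ℕ) (d d' : G × G) : Prop := Agree N d.1 d'.1 ∧ Agree N d.2 d'.2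

/-- window determined sets -/
def WD (N : ℕ) (E : Set (G × G)) : Prop := ∀ d d', Agree2 N d d' → d ∈ E → d' ∈ E

theorem WD.eq {N : ℕ} {E : Set (G × G)} (h : WD N E) : E = res N ⁻¹' (res N '' E) := by
  apply Subset.antisymm (subset_preimage_image _ _)
  rintro d ⟨d', hd', he⟩
  refine h d' d ⟨fun i hi => ?_, fun i hi => ?_⟩ hd'
  · exact congrArg Prod.fst (congrFun he ⟨i, Finset.mem_Icc.mpr (abs_le.mp hi)⟩)
  · exact congrArg Prod.snd (congrFun he ⟨i, Finset.mem_Icc.mpr (abs_le.mp hi)⟩)

theorem WD.measurableSet {N : ℕ} {E : Set (G × G)} (h : WD N E) : MeasurableSet E := by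
  rw [h.eq]
  exact (continuous_res N).measurable (Set.to_countable _).measurableSet

theorem WD.nu_eq {N : ℕ} {E : Set (G × G)} (h : WD N E) (U V : Finset ℤ) :
    nu U V (2 * N + 1) E = lam E := by
  have h1 := nu_map (haar _) (res N) (continuous_res N) (res_surj U V N)
  have h2 := nu_map (haar _) (res N) (continuous_res N) (res_surj ∅ ∅ N)
  rw [nu_empty] at h2
  rw [h.eq, h1.measure_preimage (Set.to_countable _).measurableSet.nullMeasurableSet,
    h2.measure_preimage (Set.to_countable _).measurableSet.nullMeasurableSet]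

theorem integral_pm {Ω : Type} [MeasurableSpace Ω] (ρ : Measure Ω) [IsProbabilityMeasure ρ]
    {h : Ω → ℝ} (hm : Measurable h) (h1 : ∀ x, |h x| = 1) :
    ∫ x, h x ∂ρ = 2 * ρ.real {x | h x = 1} - 1 := by
  have hE : MeasurableSet {x | h x = 1} := hm (measurableSet_singleton 1)
  have : h = fun x => 2 * ({x | h x = 1}.indicator 1 x) - 1 := by
    funext x
    by_cases hx : h x = 1
    · rw [indicator_of_mem (show x ∈ {x | h x = 1} from hx), hx]; norm_num
    · rw [indicator_of_notMem (show x ∉ {x | h x = 1} from hx)]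
      rcases eq_or_eq_neg_of_abs_eq (h1 x) with h2 | h2
      · exact absurd h2 hx
      · rw [h2]; norm_num
  conv_lhs => rw [this]
  rw [integral_sub, integral_const_mul, integral_indicator_one hE]
  · simp
  · exact ((integrable_const (1 : ℝ)).indicator hE).const_mul 2
  · exact integrable_const _

theorem transfer_le {h : G × G → ℝ} (hm : Measurable h) (h1 : ∀ d, |h d| = 1) (U V : Finset ℤ)
    (Y : Set (G × G)) (hY : ∀ᵐ d ∂lam, d ∈ Y) (hY' : ∀ R, ∀ᵐ d ∂(nu U V R), d ∈ Y)
    (hloc : ∀ d ∈ Y, ∃ N, ∀ d' ∈ Y, Agree2 N d' d → h d' = h d)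
    (h0 : ∀ N, ∫ d, h d ∂(nu U V (2 * N + 1)) = 0) : ∫ d, h d ∂lam ≤ 0 := by
  let E : ℕ → Set (G × G) := fun N => {d | ∀ d' ∈ Y, Agree2 N d' d → h d' = 1}
  have hE : ∀ N, WD N (E N) := by
    intro N d d' hdd hd e he hed
    exact hd e he ⟨fun i hi => (hed.1 i hi).trans (hdd.1 i hi).symm,
      fun i hi => (hed.2 i hi).trans (hdd.2 i hi).symm⟩
  have hmono : Monotone E := by
    intro N N' hN d hd e he hed
    exact hd e he ⟨hed.1.mono hN, hed.2.mono hN⟩
  have h2 : ∀ N, lam (E N) ≤ ENNReal.ofReal (1 / 2) := by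
    intro N
    rw [← (hE N).nu_eq U V]
    have h3 := h0 N
    rw [integral_pm _ hm h1] at h3
    have h4 : (nu U V (2 * N + 1)).real {d | h d = 1} = 1 / 2 := by linarith
    rw [← h4, ofReal_measureReal]
    apply measure_mono_ae
    filter_upwards [hY' (2 * N + 1)] with d hd hd'
    exact hd' d hd ⟨fun _ _ => rfl, fun _ _ => rfl⟩
  have h3 : lam {d | h d = 1} ≤ ENNReal.ofReal (1 / 2) := by
    calc lam {d | h d = 1} ≤ lam (⋃ N, E N) := by
          apply measure_mono_ae
          filter_upwards [hY] with d hd hd'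
          obtain ⟨N, hN⟩ := hloc d hd
          exact mem_iUnion.mpr ⟨N, fun d' h4 h5 => (hN d' h4 h5).trans hd'⟩
      _ = ⨆ N, lam (E N) := hmono.measure_iUnion
      _ ≤ _ := iSup_le h2
  rw [integral_pm _ hm h1]
  have h4 : lam.real {d | h d = 1} ≤ 1 / 2 := ENNReal.toReal_le_of_le_ofReal (by norm_num) h3
  linarith

theorem transfer {h : G × G → ℝ} (hm : Measurable h) (h1 : ∀ d, |h d| = 1) (U V : Finset ℤ)
    (Y : Set (G × G)) (hY : ∀ᵐ d ∂lam, d ∈ Y) (hY' : ∀ R, ∀ᵐ d ∂(nu U V R), d ∈ Y)
    (hloc : ∀ d ∈ Y, ∃ N, ∀ d' ∈ Y, Agree2 N d' d → h d' = h d)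
    (h0 : ∀ N, ∫ d, h d ∂(nu U V (2 * N + 1)) = 0) : ∫ d, h d ∂lam = 0 := by
  have a := transfer_le hm h1 U V Y hY hY' hloc h0
  have b := transfer_le (h := fun d => - h d) hm.neg (fun d => by rw [abs_neg, h1]) U V Y hY hY'
    (fun d hd => by
      obtain ⟨N, hN⟩ := hloc d hd
      exact ⟨N, fun d' h2 h3 => by rw [hN d' h2 h3]⟩)
    (fun N => by rw [integral_neg, h0, neg_zero])
  rw [integral_neg] at b
  linarith

theorem bessel {X Y : Type} [MeasurableSpace X] [MeasurableSpace Y] (μ : Measure X)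
    [IsProbabilityMeasure μ] (ν : Measure Y) [IsProbabilityMeasure ν] {J : Y → X}
    (hJ : Measurable J) {w : ENNReal} (hw : w ≠ 0) (hw' : w ≠ ⊤) (hle : w • ν.map J ≤ μ)
    (e : ℕ → X → ℝ) (hem : ∀ k, Measurable (e k)) (he1 : ∀ k x, |e k x| = 1)
    (horth : ∀ k k', k ≠ k' → ∫ x, e k x * e k' x ∂μ = 0) {g : Y → ℝ} (hg : Measurable g)
    (hg1 : ∀ y, |g y| = 1) {c : ℝ} (hc : ∀ k, ∫ y, e k (J y) * g y ∂ν = c) : c = 0 := by
  have hwr : 0 < w.toReal := ENNReal.toReal_pos hw hw'
  have key : ∀ n : ℕ, 0 < n → w.toReal * ((n : ℝ) ^ 2 * |c|) ≤ n := by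
    intro n hn
    let S : X → ℝ := fun x => ∑ k ∈ Finset.range (n ^ 2), e k x
    have hSm : Measurable S := Finset.measurable_sum _ fun k _ => hem k
    have hSb : ∀ x, |S x| ≤ (n : ℝ) ^ 2 := by
      intro x
      refine (Finset.abs_sum_le_sum_abs _ _).trans ?_
      simp [he1]
    have hee : ∀ k k', Integrable (fun x => e k x * e k' x) μ := fun k k' =>
      integrable_bdd ((hem k).mul (hem k')) (C := 1) fun x => by simp [abs_mul, he1]
    have hS2 : ∫ x, S x ^ 2 ∂μ = (n : ℝ) ^ 2 := by
      have : ∀ x, S x ^ 2 = ∑ k ∈ Finset.range (n ^ 2), ∑ k' ∈ Finset.range (n ^ 2),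
          e k x * e k' x := fun x => by rw [sq, Finset.sum_mul_sum]
      simp_rw [this]
      rw [integral_finsetSum _ fun k _ => integrable_finsetSum _ fun k' _ => hee k k']
      have h2 : ∀ k ∈ Finset.range (n ^ 2),
          ∫ x, ∑ k' ∈ Finset.range (n ^ 2), e k x * e k' x ∂μ = 1 := by
        intro k hk
        rw [integral_finsetSum _ fun k' _ => hee k k', Finset.sum_eq_single k]
        · have : ∀ x, e k x * e k x = 1 := fun x => by rw [← abs_mul_abs_self, he1, mul_one]
          simp [this]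
        · intro k' _ hk'; exact horth k k' (Ne.symm hk')
        · intro h; exact absurd hk h
      rw [Finset.sum_congr rfl h2]
      simp
    have hnr : (0 : ℝ) < n := by exact_mod_cast hn
    have hSi : Integrable (fun x => |S x|) μ :=
      integrable_bdd hSm.abs (C := (n : ℝ) ^ 2) fun x => by rw [abs_abs]; exact hSb x
    have hS2i : Integrable (fun x => S x ^ 2) μ :=
      integrable_bdd (hSm.pow_const 2) (C := ((n : ℝ) ^ 2) ^ 2) fun x => by
        rw [abs_pow]; exact pow_le_pow_left₀ (abs_nonneg _) (hSb x) 2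
    have h3 : ∫ x, |S x| ∂μ ≤ n := by
      calc ∫ x, |S x| ∂μ ≤ ∫ x, (n / 2 + (1 / (2 * n)) * S x ^ 2) ∂μ := by
            apply integral_mono hSi ((integrable_const _).add (hS2i.const_mul _))
            intro x
            show |S x| ≤ n / 2 + (1 / (2 * n)) * S x ^ 2
            rw [← sq_abs]
            have : (n : ℝ) / 2 + (1 / (2 * n)) * |S x| ^ 2 - |S x| = (n - |S x|) ^ 2 / (2 * n) := by
              field_simp; ring
            have h4 : 0 ≤ ((n : ℝ) - |S x|) ^ 2 / (2 * n) := by positivity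
            linarith
        _ = n := by
            rw [integral_add (integrable_const _) (hS2i.const_mul _), integral_const_mul, hS2]
            simp only [integral_const, probReal_univ, smul_eq_mul, one_mul]
            field_simp; ring
    have h4 : (n : ℝ) ^ 2 * c = ∫ y, S (J y) * g y ∂ν := by
      have : ∀ y, S (J y) * g y = ∑ k ∈ Finset.range (n ^ 2), e k (J y) * g y :=
        fun y => Finset.sum_mul _ _ _
      simp_rw [this]
      have hi : ∀ k, Integrable (fun y => e k (J y) * g y) ν := fun k =>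
        integrable_bdd (((hem k).comp hJ).mul hg) (C := 1) fun y => by simp [abs_mul, he1, hg1]
      rw [integral_finsetSum _ fun k _ => hi k]
      simp [hc]
    have h5 : (n : ℝ) ^ 2 * |c| ≤ ∫ x, |S x| ∂(ν.map J) := by
      rw [integral_map hJ.aemeasurable hSm.abs.aestronglyMeasurable]
      calc (n : ℝ) ^ 2 * |c| = |∫ y, S (J y) * g y ∂ν| := by
            rw [← h4, abs_mul, abs_of_nonneg (by positivity : (0 : ℝ) ≤ (n : ℝ) ^ 2)]
        _ ≤ ∫ y, |S (J y) * g y| ∂ν := abs_integral_le_integral_abs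
        _ = _ := by simp [abs_mul, hg1]
    have h6 : w.toReal * ∫ x, |S x| ∂(ν.map J) ≤ ∫ x, |S x| ∂μ := by
      rw [← smul_eq_mul, ← integral_smul_measure]
      exact integral_mono_measure hle (Eventually.of_forall fun x => abs_nonneg _) hSi
    calc w.toReal * ((n : ℝ) ^ 2 * |c|) ≤ w.toReal * ∫ x, |S x| ∂(ν.map J) :=
          mul_le_mul_of_nonneg_left h5 hwr.le
      _ ≤ _ := h6.trans h3
  by_contra hc0
  have hpos : 0 < w.toReal * |c| := mul_pos hwr (abs_pos.mpr hc0)
  obtain ⟨n, hn⟩ := exists_nat_gt (1 / (w.toReal * |c|))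
  have hn0 : (0 : ℝ) < n := lt_trans (by positivity) hn
  have h1 := key n (by exact_mod_cast hn0)
  rw [div_lt_iff₀ hpos] at hn
  nlinarith

theorem haar_cyl (s : Finset ℤ) (w : G) :
    haar G {z | ∀ i ∈ s, z i = w i} = ∏ i ∈ s, haar F2 {w i} := by
  let f : G →+ (s → F2) :=
    { toFun := fun z => s.restrict z, map_zero' := rfl, map_add' := fun _ _ => rfl }
  have hf : Continuous f := continuous_pi fun i => continuous_apply (i : ℤ)
  have h1 : MeasurePreserving f (haar G) (Measure.pi fun _ : s => haar F2) := by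
    apply AddMonoidHom.measurePreserving hf
    · classical
      intro y
      exact ⟨fun i => if h : i ∈ s then y ⟨i, h⟩ else 0, by funext i; simp [f]⟩
    · simp
  have h2 : {z : G | ∀ i ∈ s, z i = w i} = f ⁻¹' {s.restrict w} := by
    ext z
    simp only [mem_ofPred_eq, mem_preimage, mem_singleton_iff]
    constructor
    · intro h; funext i; exact h i i.2
    · intro h i hi; exact congrFun h ⟨i, hi⟩
  rw [h2, h1.measure_preimage (measurableSet_singleton _).nullMeasurableSet, Measure.pi_singleton,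
    ← Finset.prod_coe_sort s]
  rfl

theorem eq_haar (ρ : Measure G) [IsProbabilityMeasure ρ]
    (h : ∀ (s : Finset ℤ) (w : G), ρ {z | ∀ i ∈ s, z i = w i} = ∏ i ∈ s, haar F2 {w i}) :
    ρ = haar G := by
  classical
  refine ext_of_generate_finite _ generateFrom_measurableCylinders.symm
    isPiSystem_measurableCylinders ?_ (by simp)
  intro E hE
  obtain ⟨s, S, hS, rfl⟩ := (mem_measurableCylinders _).mp hE
  have hm : Measurable (s.restrict : G → (s → F2)) := Finset.measurable_restrict s
  have : ρ.map s.restrict = (haar G).map s.restrict := by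
    apply Measure.ext_of_singleton
    intro y
    have h2 : (s.restrict : G → (s → F2)) ⁻¹' {y} =
        {z : G | ∀ i ∈ s, z i = (fun i => if h : i ∈ s then y ⟨i, h⟩ else 0) i} := by
      ext z
      simp only [mem_ofPred_eq, mem_preimage, mem_singleton_iff]
      constructor
      · rintro rfl i hi; simp [hi]
      · intro h; funext i; simpa using h i i.2
    rw [Measure.map_apply hm (measurableSet_singleton _),
      Measure.map_apply hm (measurableSet_singleton _), h2, h, haar_cyl]
  rw [cylinder, ← Measure.map_apply hm hS, ← Measure.map_apply hm hS, this]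

end Pool.Agent.H342Z.FF
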