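import Mathlib

set_option autoImplicit false
set_option linter.style.haveILetI false

namespace Pool.Agent.H342Z.FF

open Set Filter Topology MeasureTheory

/-! The non-Borelness of the set of ill-founded trees is copied from the
start file `Pool/Agent/S14362.lean`. -/

/-- Initial segments, written backwards. -/
def pre {α : Type} (x : ℕ → α) : ℕ → List α
  | 0 => []
  | n + 1 => x n :: pre x n

theorem pre_length {α : Type} (x : ℕ → α) (n : ℕ) : (pre x n).length = n := by
  induction n with
  | zero => rfl
  | succ n ih => simp [pre, ih]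

theorem pre_eq {α : Type} {x y : ℕ → α} {n : ℕ} (h : pre x n = pre y n) : ∀ i < n, x i = y i := by
  induction n with
  | zero => intro i hi; omega
  | succ n ih =>
    intro i hi
    simp only [pre, List.cons.injEq] at h
    rcases Nat.lt_succ_iff_lt_or_eq.mp hi with h1 | h1
    · exact ih h.2 i h1
    · rw [h1]; exact h.1

/-- The tree coded by `z`. -/
def Tr (z : ℕ → Bool) : Set (List ℕ) :=
  {s | z (Encodable.encode (pre z s.length, s)) = true}

/-- The set of codes of ill-founded trees. -/
def IF : Set (ℕ → Bool) := {z | ∃ y : ℕ → ℕ, ∀ n, pre y n ∈ Tr z}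

theorem measurableSet_pre (n : ℕ) (u : List Bool) : MeasurableSet {z : ℕ → Bool | pre z n = u} := by
  induction n generalizing u with
  | zero =>
    by_cases h : u = []
    · simp [pre, h]
    · have : {z : ℕ → Bool | pre z 0 = u} = ∅ := by
        ext z
        simp only [pre, mem_ofPred_eq, mem_empty_iff_false, iff_false]
        exact fun h' => h h'.symm
      rw [this]
      exact MeasurableSet.empty
  | succ n ih =>
    cases u with
    | nil =>
      have : {z : ℕ → Bool | pre z (n + 1) = []} = ∅ := by
        ext z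
        simp [pre]
      rw [this]
      exact MeasurableSet.empty
    | cons b u =>
      have : {z : ℕ → Bool | pre z (n + 1) = b :: u} =
          (fun z : ℕ → Bool => z n) ⁻¹' {b} ∩ {z | pre z n = u} := by
        ext z
        simp [pre]
      rw [this]
      exact (measurable_pi_apply n (MeasurableSet.singleton b)).inter (ih u)

theorem measurableSet_Tr (s : List ℕ) : MeasurableSet {z : ℕ → Bool | s ∈ Tr z} := by
  have : {z : ℕ → Bool | s ∈ Tr z} = ⋃ u : List Bool,
      ({z | pre z s.length = u} ∩ (fun z : ℕ → Bool => z (Encodable.encode (u, s))) ⁻¹' {true}) := by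
    ext z
    simp [Tr]
  rw [this]
  refine MeasurableSet.iUnion fun u => (measurableSet_pre _ u).inter ?_
  exact measurable_pi_apply _ (MeasurableSet.singleton true)

theorem not_measurableSet_IF : ¬ MeasurableSet IF := by
  classical
  intro hIF
  have : PolishSpace (ℕ → Bool) := ⟨⟩
  have h1 := hIF.compl.analyticSet
  rw [AnalyticSet] at h1
  rcases h1 with h1 | ⟨f, hf, hfr⟩
  · have h2 : (fun _ : ℕ => false) ∈ IFᶜ := by
      rintro ⟨y, hy⟩
      have := hy 0
      simp [Tr] at this
    rw [h1] at h2
    exact h2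
  · let R : List Bool × List ℕ → Prop := fun p =>
      ∃ y : ℕ → ℕ, pre y p.2.length = p.2 ∧ pre (f y) p.2.length = p.1
    let z0 : ℕ → Bool := fun m =>
      match (Encodable.decode m : Option (List Bool × List ℕ)) with
      | none => false
      | some p => decide (R p)
    have hz0 : ∀ p, z0 (Encodable.encode p) = true ↔ R p := by
      intro p
      have h4 := Encodable.encodek p
      simp only [z0, h4, decide_eq_true_eq]
    have key : ∀ z : ℕ → Bool,
        (∃ y : ℕ → ℕ, ∀ n, z0 (Encodable.encode (pre z n, pre y n)) = true) ↔ z ∈ range f := by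
      intro z
      constructor
      · rintro ⟨y, hy⟩
        refine ⟨y, ?_⟩
        have h3 : ∀ n, ∃ y' : ℕ → ℕ, pre y' n = pre y n ∧ pre (f y') n = pre z n := by
          intro n
          obtain ⟨y', h4, h5⟩ := (hz0 _).mp (hy n)
          simp only [pre_length] at h4 h5
          exact ⟨y', h4, h5⟩
        choose Y hY1 hY2 using h3
        have h4 : Tendsto Y atTop (𝓝 y) := by
          rw [tendsto_pi_nhds]
          intro i
          apply tendsto_const_nhds.congr'
          filter_upwards [eventually_gt_atTop i] with n hn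
          exact (pre_eq (hY1 n) i hn).symm
        have h5 : Tendsto (fun n => f (Y n)) atTop (𝓝 z) := by
          rw [tendsto_pi_nhds]
          intro i
          apply tendsto_const_nhds.congr'
          filter_upwards [eventually_gt_atTop i] with n hn
          exact (pre_eq (hY2 n) i hn).symm
        exact tendsto_nhds_unique ((hf.tendsto y).comp h4) h5
      · rintro ⟨y, rfl⟩
        refine ⟨y, fun n => (hz0 _).mpr ⟨y, ?_, ?_⟩⟩
        · simp only [pre_length]
        · simp only [pre_length]
    have h2 : z0 ∈ IF ↔ z0 ∈ range f := by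
      rw [← key]
      simp only [IF, Tr, mem_ofPred_eq, pre_length]
    rw [hfr] at h2
    by_cases h3 : z0 ∈ IF
    · exact (h2.mp h3) h3
    · exact h3 (h2.mpr h3)

/-- The upward closed version of the tree coded by `z`. -/
def Star (z : ℕ → Bool) (τ : List ℕ) : Prop :=
  ∃ y : ℕ → ℕ, List.Forall₂ (· ≤ ·) (pre y τ.length) τ ∧ ∀ k ≤ τ.length, pre y k ∈ Tr z

theorem forall₂_pre {y x : ℕ → ℕ} {n : ℕ} (h : List.Forall₂ (· ≤ ·) (pre y n) (pre x n)) :
    ∀ i < n, y i ≤ x i := by
  induction n with
  | zero => intro i hi; omega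
  | succ n ih =>
    intro i hi
    simp only [pre, List.forall₂_cons] at h
    rcases Nat.lt_succ_iff_lt_or_eq.mp hi with h1 | h1
    · exact ih h.2 i h1
    · rw [h1]; exact h.1

theorem pre_congr {α : Type} {x y : ℕ → α} {n : ℕ} (h : ∀ i < n, x i = y i) :
    pre x n = pre y n := by
  induction n with
  | zero => rfl
  | succ n ih =>
    simp only [pre]
    rw [h n (Nat.lt_succ_self n), ih fun i hi => h i (Nat.lt_succ_of_lt hi)]

theorem continuous_pre (n : ℕ) :
    @Continuous (ℕ → ℕ) (List ℕ) _ ⊥ (fun y => pre y n) := by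
  letI : TopologicalSpace (List ℕ) := ⊥
  haveI : DiscreteTopology (List ℕ) := ⟨rfl⟩
  apply IsLocallyConstant.continuous
  rw [IsLocallyConstant.iff_exists_open]
  intro y
  refine ⟨⋂ i ∈ Finset.range n, {y' | y' i = y i}, ?_, by simp, ?_⟩
  · refine isOpen_biInter_finset fun i _ => ?_
    exact IsOpen.preimage (f := fun y' : ℕ → ℕ => y' i) (continuous_apply i) (isOpen_discrete {y i})
  · intro y' hy'
    apply pre_congr
    intro i hi
    simp only [mem_iInter, mem_ofPred_eq, Finset.mem_range] at hy'
    exact hy' i hi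

theorem konig {z : ℕ → Bool} {x : ℕ → ℕ} (h : ∀ n, Star z (pre x n)) : z ∈ IF := by
  classical
  letI : TopologicalSpace (List ℕ) := ⊥
  haveI : DiscreteTopology (List ℕ) := ⟨rfl⟩
  let K : ℕ → Set (ℕ → ℕ) := fun n =>
    (Set.pi univ fun i => Set.Iic (x i)) ∩ {y | ∀ k ≤ n, pre y k ∈ Tr z}
  have hcl : ∀ n, IsClosed {y : ℕ → ℕ | ∀ k ≤ n, pre y k ∈ Tr z} := by
    intro n
    have : {y : ℕ → ℕ | ∀ k ≤ n, pre y k ∈ Tr z} = ⋂ k, ⋂ _ : k ≤ n, (fun y => pre y k) ⁻¹' Tr z := by
      ext y; simp
    rw [this]
    exact isClosed_iInter fun k => isClosed_iInter fun _ =>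
      (isClosed_discrete _).preimage (continuous_pre k)
  have hc : IsCompact (Set.pi univ fun i => Set.Iic (x i)) :=
    isCompact_univ_pi fun i => (Set.finite_Iic (x i)).isCompact
  have hne : ∀ n, (K n).Nonempty := by
    intro n
    obtain ⟨y, hy1, hy2⟩ := h n
    rw [pre_length] at hy1 hy2
    refine ⟨fun i => if i < n then y i else 0, ?_, ?_⟩
    · intro i _
      by_cases hi : i < n
      · simp only [hi, if_true, mem_Iic]
        exact forall₂_pre hy1 i hi
      · simp [hi]
    · intro k hk
      have : pre (fun i => if i < n then y i else 0) k = pre y k :=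
        pre_congr fun i hi => by simp [lt_of_lt_of_le hi hk]
      rw [this]
      exact hy2 k hk
  have := IsCompact.nonempty_iInter_of_sequence_nonempty_isCompact_isClosed K
    (fun n y hy => ⟨hy.1, fun k hk => hy.2 k (Nat.le_succ_of_le hk)⟩) hne
    (hc.inter_right (hcl 0)) (fun n => hc.isClosed.inter (hcl n))
  obtain ⟨y, hy⟩ := this
  exact ⟨y, fun n => (mem_iInter.mp hy n).2 n le_rfl⟩

theorem measurableSet_Star (τ : List ℕ) : MeasurableSet {z : ℕ → Bool | Star z τ} := by
  have : {z : ℕ → Bool | Star z τ} = ⋃ s : List ℕ, ⋃ _ : List.Forall₂ (· ≤ ·) s τ,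
      ⋂ t : List ℕ, ⋂ _ : t <:+ s, {z | t ∈ Tr z} := by
    ext z
    simp only [Star, mem_ofPred_eq, mem_iUnion, mem_iInter]
    constructor
    · rintro ⟨y, h1, h2⟩
      refine ⟨_, h1, fun t ht => ?_⟩
      have key : ∀ n, ∀ t : List ℕ, t <:+ pre y n → ∃ k ≤ n, t = pre y k := by
        intro n
        induction n with
        | zero => intro t ht; exact ⟨0, le_rfl, by simpa [pre] using ht⟩
        | succ n ih =>
          intro t ht
          simp only [pre, List.suffix_cons_iff] at ht
          rcases ht with ht | ht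
          · exact ⟨n + 1, le_rfl, ht⟩
          · obtain ⟨k, hk, hk'⟩ := ih t ht
            exact ⟨k, Nat.le_succ_of_le hk, hk'⟩
      obtain ⟨k, hk, rfl⟩ := key _ t ht
      exact h2 k hk
    · rintro ⟨s, h1, h2⟩
      have key : ∀ s : List ℕ, ∃ y : ℕ → ℕ, pre y s.length = s := by
        intro s
        induction s with
        | nil => exact ⟨fun _ => 0, rfl⟩
        | cons a s ih =>
          obtain ⟨y, hy⟩ := ih
          refine ⟨Function.update y s.length a, ?_⟩
          simp only [List.length_cons, pre, Function.update_self, List.cons.injEq, true_and]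
          refine Eq.trans ?_ hy
          apply pre_congr
          intro i hi
          rw [Function.update_of_ne (by omega)]
      obtain ⟨y, hy⟩ := key s
      have hl : s.length = τ.length := h1.length_eq
      refine ⟨y, by rw [← hl, hy]; exact h1, fun k hk => h2 _ ?_⟩
      rw [← hl] at hk
      rw [← hy]
      generalize s.length = n at hk
      induction n with
      | zero =>
        obtain rfl : k = 0 := by omega
        exact List.suffix_refl _
      | succ n ih =>
        rcases Nat.lt_succ_iff_lt_or_eq.mp (Nat.lt_succ_of_le hk) with h3 | h3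
        · exact (ih (Nat.le_of_lt_succ h3)).trans (List.suffix_cons _ _)
        · rw [h3]
  rw [this]
  exact MeasurableSet.iUnion fun s => MeasurableSet.iUnion fun _ =>
    MeasurableSet.iInter fun t => MeasurableSet.iInter fun _ => measurableSet_Tr t

/-- A good set of nodes. -/
structure Good (D : List ℕ → Prop) : Prop where
  root : D []
  up : ∀ τ j, D (j :: τ) → D τ
  down : ∀ τ, D τ → ∃ y, ∀ j, y ≤ j → D (j :: τ)

theorem exists_good {z : ℕ → Bool} (hz : z ∈ IF) :
    ∃ D : List ℕ → Prop, Good D ∧ ∀ τ, D τ → Star z τ := by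
  obtain ⟨y, hy⟩ := hz
  refine ⟨fun τ => List.Forall₂ (· ≤ ·) (pre y τ.length) τ, ⟨?_, ?_, ?_⟩, ?_⟩
  · simp [pre]
  · intro τ j h
    simp only [List.length_cons, pre, List.forall₂_cons] at h
    exact h.2
  · intro τ h
    refine ⟨y τ.length, fun j hj => ?_⟩
    simp only [List.length_cons, pre, List.forall₂_cons]
    exact ⟨hj, h⟩
  · intro τ h
    exact ⟨y, h, fun k _ => hy k⟩

end Pool.Agent.H342Z.FF
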